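import Pool.Agent.MP_3fc7f4_gt.Abs
import Pool.Agent.MP_3fc7f4_gt.Mg.Bochner

/-! The pointwise orthonormal model of gradients, Hessians and the Ricci tensor, its uniqueness up
to an orthogonal matrix, and the abstract curvature package. -/

open MeasureTheory Filter Topology Set Matrix

namespace Pool.Agent.MP_9bd639_gt.H87

open Pool.Agent.MP_3fc7f4_gt

/-- Components of gradients, Hessians and the Ricci tensor in an orthonormal basis at z. -/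
structure Model {M : Type} (Sm : (M → ℝ) → Prop) (Γ : (M → ℝ) → (M → ℝ) → M → ℝ)
    (Δ : (M → ℝ) → M → ℝ) (z : M) where
  r : Matrix (Fin 3) (Fin 3) ℝ
  ξ : (M → ℝ) → Fin 3 → ℝ
  h : (M → ℝ) → Matrix (Fin 3) (Fin 3) ℝ
  r_symm : r.IsSymm
  h_symm : ∀ f, Sm f → (h f).IsSymm
  add : ∀ f k, Sm f → Sm k →
    Sm (fun y => f y + k y) ∧ ξ (fun y => f y + k y) = ξ f + ξ k
  Γ_eq : ∀ f k, Sm f → Sm k → Γ f k z = ξ f ⬝ᵥ ξ k
  Δ_eq : ∀ f, Sm f → Δ f z = (h f).trace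
  ΓΓ : ∀ f k l, Sm f → Sm k → Sm l →
    Γ (Γ f k) l z = ξ l ⬝ᵥ (h f *ᵥ ξ k) + ξ l ⬝ᵥ (h k *ᵥ ξ f)
  Γ2 : ∀ f, Sm f → Δ (Γ f f) z / 2 - Γ f (Δ f) z = (h f * h f).trace + ξ f ⬝ᵥ (r *ᵥ ξ f)
  surj : ∀ v, ∃ f, Sm f ∧ ξ f = v

theorem symm_dot {S : Matrix (Fin 3) (Fin 3) ℝ} (hS : S.IsSymm) (a b : Fin 3 → ℝ) :
    a ⬝ᵥ (S *ᵥ b) = b ⬝ᵥ (S *ᵥ a) := by
  rw [dotProduct_mulVec, ← mulVec_transpose, hS.eq, dotProduct_comm]

theorem trace_conj {O : Matrix (Fin 3) (Fin 3) ℝ} (hO : Oᵀ * O = 1)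
    (A B : Matrix (Fin 3) (Fin 3) ℝ) :
    (O * A * Oᵀ * (O * B * Oᵀ)).trace = (A * B).trace := by
  rw [show O * A * Oᵀ * (O * B * Oᵀ) = O * (A * (Oᵀ * O) * B * Oᵀ) by simp only [Matrix.mul_assoc],
    trace_mul_comm, Matrix.mul_assoc, hO, Matrix.mul_one, Matrix.mul_one]

theorem quad_sq_le {S : Matrix (Fin 3) (Fin 3) ℝ} (hS : S.IsSymm) (a b : Fin 3 → ℝ) :
    (a ⬝ᵥ (S *ᵥ b)) ^ 2 ≤ (S * S).trace * (a ⬝ᵥ a) * (b ⬝ᵥ b) := by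
  have h1 : (a ⬝ᵥ (S *ᵥ b)) ^ 2 ≤ (∑ i, a i ^ 2) * ∑ i, (S *ᵥ b) i ^ 2 :=
    Finset.sum_mul_sq_le_sq_mul_sq Finset.univ a (S *ᵥ b)
  have h2 : ∑ i, (S *ᵥ b) i ^ 2 ≤ (∑ i, ∑ j, S i j ^ 2) * ∑ j, b j ^ 2 := by
    rw [Finset.sum_mul]
    exact Finset.sum_le_sum fun i _ =>
      Finset.sum_mul_sq_le_sq_mul_sq Finset.univ (fun j => S i j) b
  have e : ∀ c : Fin 3 → ℝ, c ⬝ᵥ c = ∑ i, c i ^ 2 := fun c => by simp only [dotProduct, sq]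
  rw [bochner_trace_sq hS, e, e]
  have h3 := mul_le_mul_of_nonneg_left h2 (Finset.sum_nonneg fun i (_ : i ∈ Finset.univ) =>
    sq_nonneg (a i))
  linarith

namespace Model

variable {M : Type} {Sm : (M → ℝ) → Prop} {Γ : (M → ℝ) → (M → ℝ) → M → ℝ}
  {Δ : (M → ℝ) → M → ℝ} {z : M}

theorem hess_eq (m : Model Sm Γ Δ z) {f k l : M → ℝ} (hf : Sm f) (hk : Sm k) (hl : Sm l) :
    2 * (m.ξ l ⬝ᵥ (m.h f *ᵥ m.ξ k)) = Γ (Γ f k) l z + Γ (Γ f l) k z - Γ (Γ k l) f z := by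
  rw [m.ΓΓ f k l hf hk hl, m.ΓΓ f l k hf hl hk, m.ΓΓ k l f hk hl hf,
    symm_dot (m.h_symm f hf) (m.ξ k), symm_dot (m.h_symm k hk) (m.ξ f),
    symm_dot (m.h_symm l hl) (m.ξ f)]
  ring

/-- The invariants of a model do not depend on the model. -/
theorem inv (m m' : Model Sm Γ Δ z) : m.r.trace = m'.r.trace ∧
    (m.r * m.r).trace = (m'.r * m'.r).trace ∧
    ∀ f, Sm f → (m.r * m.h f).trace = (m'.r * m'.h f).trace := by
  choose F hF hF' using fun i : Fin 3 => m.surj (Pi.single i 1)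
  set O : Matrix (Fin 3) (Fin 3) ℝ := Matrix.of fun i j => m'.ξ (F i) j with hO
  have conj : ∀ (A : Matrix (Fin 3) (Fin 3) ℝ) i j,
      (O * A * Oᵀ) i j = m'.ξ (F i) ⬝ᵥ (A *ᵥ m'.ξ (F j)) := fun A i j => by
    simp only [hO, Matrix.mul_apply, transpose_apply, of_apply, dotProduct, mulVec,
      Fin.sum_univ_three]
    ring
  have ent : ∀ (A : Matrix (Fin 3) (Fin 3) ℝ) i j,
      A i j = m.ξ (F i) ⬝ᵥ (A *ᵥ m.ξ (F j)) := fun A i j => by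
    rw [hF', hF']
    simp
  have h1 : O * Oᵀ = 1 := by
    ext i j
    have e := conj 1 i j
    rw [Matrix.mul_one, one_mulVec, ← m'.Γ_eq _ _ (hF i) (hF j), m.Γ_eq _ _ (hF i) (hF j)] at e
    rw [e, ent 1 i j, one_mulVec]
  have h2 : Oᵀ * O = 1 := mul_eq_one_comm.1 h1
  have h3 : ∀ f, Sm f → m.h f = O * m'.h f * Oᵀ := fun f hf => by
    ext i j
    have e1 := m.hess_eq hf (hF j) (hF i)
    have e2 := m'.hess_eq hf (hF j) (hF i)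
    rw [conj, ent (m.h f)]
    linarith
  have h4 : ∀ f, Sm f → m.ξ f ⬝ᵥ (m.r *ᵥ m.ξ f) = m'.ξ f ⬝ᵥ (m'.r *ᵥ m'.ξ f) := fun f hf => by
    have e1 := m.Γ2 f hf
    have e2 := m'.Γ2 f hf
    rw [h3 f hf, trace_conj h2] at e1
    linarith
  have h5 : m.r = O * m'.r * Oᵀ := by
    ext i j
    have e := h4 _ (m.add _ _ (hF i) (hF j)).1
    rw [(m.add _ _ (hF i) (hF j)).2, (m'.add _ _ (hF i) (hF j)).2] at e
    simp only [mulVec_add, dotProduct_add, add_dotProduct] at e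
    rw [symm_dot m.r_symm (m.ξ (F j)), symm_dot m'.r_symm (m'.ξ (F j))] at e
    rw [conj, ent m.r]
    linarith [h4 _ (hF i), h4 _ (hF j)]
  refine ⟨?_, ?_, fun f hf => ?_⟩
  · rw [h5, trace_mul_comm, ← Matrix.mul_assoc, h2, Matrix.one_mul]
  · rw [h5, trace_conj h2]
  · rw [h3 f hf, h5, trace_conj h2]

end Model

/-- The curvature data used in the analytic part: σ is σ₁, q is the squared norm of the Ricci
tensor and RH f is the inner product of the Ricci tensor with the Hessian of f. -/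
structure Curv {M : Type} [MetricSpace M] [MeasurableSpace M] {μ : Measure M} {lam : ℝ}
    (g : Geo M μ 3 lam) where
  σ : M → ℝ
  q : M → ℝ
  RH : (M → ℝ) → M → ℝ
  sm_σ : g.Sm σ
  cont_q : Continuous q
  cont_RH : ∀ f, g.Sm f → Continuous (RH f)
  bianchi : ∀ f, g.Sm f → ∫ x, RH f x ∂μ = ∫ x, 2 * σ x * g.Δ f x ∂μ
  model : ∀ z, ∃ m : Model g.Sm g.Γ g.Δ z, m.r.trace = 4 * σ z ∧ (m.r * m.r).trace = q z ∧
    ∀ f, g.Sm f → (m.r * m.h f).trace = RH f z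
  part : ∀ ρ > 0, ∃ (S : Finset M) (ψ : M → M → ℝ),
    (∀ x, g.Sm (ψ x) ∧ (∀ z, 0 ≤ ψ x z) ∧ ∀ z, ψ x z ≠ 0 → dist x z ≤ ρ) ∧
      ∀ z, ∑ x ∈ S, ψ x z = 1

end Pool.Agent.MP_9bd639_gt.H87
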