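import Pool.Agent.MP_3fc7f4_gt.Mg.Bochner
import Pool.Agent.MP_3fc7f4_gt.Mg.GeoM
import Pool.Agent.MP_9bd639_gt.H87.Defs
import Pool.Agent.MP_9bd639_gt.Mg.H87_Model
import Pool.Agent.MP_3fc7f4_gt.Cut
import Pool.Agent.MP_3fc7f4_gt.Mg.Zb
import Pool.Agent.MP_3fc7f4_gt.Kernel

-- part MP_9bd639_gt.H87.Bianchi
section

/-! The contracted second Bianchi identity in coordinates, in dimension three. -/

open Filter Topology Set Matrix
open scoped ContDiff

namespace Pool.Agent.MP_9bd639_gt.H87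

open Pool.Agent.MP_3fc7f4_gt

theorem alg_contract (C : Fin 3 → Fin 3 → Fin 3 → ℝ) (Φ : Fin 3 → Fin 3 → Fin 3 → Fin 3 → ℝ)
    (D : Fin 3 → Fin 3 → Fin 3 → Fin 3 → Fin 3 → ℝ) (hC : ∀ k i j, C k i j = C k j i)
    (h1 : ∀ i j a b, Φ i j a b = -Φ j i a b) (h2 : ∀ i j a b, Φ i j a b = -Φ i j b a)
    (d1 : ∀ m i j a b, D m i j a b = -D m j i a b) (d2 : ∀ m i j a b, D m i j a b = -D m i j b a)
    (hB : ∀ m i j a b,
      (D m i j a b + ∑ c, (C a m c * Φ i j c b + C b m c * Φ i j a c)) +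
      (D i j m a b + ∑ c, (C a i c * Φ j m c b + C b i c * Φ j m a c)) +
      (D j m i a b + ∑ c, (C a j c * Φ m i c b + C b j c * Φ m i a c)) = 0) (i : Fin 3) :
    2 * ∑ a, (∑ j, D a i j a j +
      ∑ c, (C a a c * ∑ j, Φ i j c j - C c a i * ∑ j, Φ c j a j)) = ∑ a, ∑ j, D i a j a j := by
  have p0 : ∀ i a b, Φ i i a b = 0 := fun i a b => by linarith [h1 i i a b]
  have q0 : ∀ i j a, Φ i j a a = 0 := fun i j a => by linarith [h2 i j a a]
  have r0 : ∀ m i a b, D m i i a b = 0 := fun m i a b => by linarith [d1 m i i a b]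
  have s0 : ∀ m i j a, D m i j a a = 0 := fun m i j a => by linarith [d2 m i j a a]
  have key : ∑ m, ∑ j, ((D m i j m j + ∑ c, (C m m c * Φ i j c j + C j m c * Φ i j m c)) +
      (D i j m m j + ∑ c, (C m i c * Φ j m c j + C j i c * Φ j m m c)) +
      (D j m i m j + ∑ c, (C m j c * Φ m i c j + C j j c * Φ m i m c))) = 0 := by
    simp only [hB, Finset.sum_const_zero]
  have e1 := fun a b => h1 1 0 a b
  have e2 := fun a b => h1 2 0 a b
  have e3 := fun a b => h1 2 1 a b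
  have f1 := fun i j => h2 i j 1 0
  have f2 := fun i j => h2 i j 2 0
  have f3 := fun i j => h2 i j 2 1
  have g1 := fun m a b => d1 m 1 0 a b
  have g2 := fun m a b => d1 m 2 0 a b
  have g3 := fun m a b => d1 m 2 1 a b
  have k1 := fun m i j => d2 m i j 1 0
  have k2 := fun m i j => d2 m i j 2 0
  have k3 := fun m i j => d2 m i j 2 1
  have c1 := fun k => hC k 1 0
  have c2 := fun k => hC k 2 0
  have c3 := fun k => hC k 2 1
  obtain rfl | rfl | rfl : i = 0 ∨ i = 1 ∨ i = 2 := by fin_cases i <;> simp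
  all_goals
    simp only [Fin.sum_univ_three, p0, q0, r0, s0, e1, e2, e3, f1, f2, f3, g1, g2, g3, k1, k2, k3,
      c1, c2, c3] at key ⊢
    linear_combination key

variable {U : Set (Euc 3)} {G : Euc 3 → Matrix (Fin 3) (Fin 3) ℝ} {y : Euc 3}

/-- The curvature matrix of the connection. -/
noncomputable def cF (G : Euc 3 → Matrix (Fin 3) (Fin 3) ℝ) (i j a b : Fin 3) (z : Euc 3) : ℝ :=
  pd i (christoffel G a j b) z - pd j (christoffel G a i b) z +
    ∑ m, (christoffel G a i m z * christoffel G m j b z -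
      christoffel G a j m z * christoffel G m i b z)

/-- The curvature with both matrix indices up. -/
noncomputable def cP (G : Euc 3 → Matrix (Fin 3) (Fin 3) ℝ) (i j a b : Fin 3) (z : Euc 3) : ℝ :=
  ∑ c, cF G i j a c z * (G z)⁻¹ c b

theorem cd_cF (h : Met U G) (hy : y ∈ U) (i j a b : Fin 3) : ContDiffAt ℝ ∞ (cF G i j a b) y :=
  ((cd_pd i (h.cd_chr hy a j b)).sub (cd_pd j (h.cd_chr hy a i b))).add
    (ContDiffAt.sum fun m _ => ((h.cd_chr hy a i m).mul (h.cd_chr hy m j b)).sub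
      ((h.cd_chr hy a j m).mul (h.cd_chr hy m i b)))

theorem cd_cP (h : Met U G) (hy : y ∈ U) (i j a b : Fin 3) : ContDiffAt ℝ ∞ (cP G i j a b) y :=
  ContDiffAt.sum fun c _ => (cd_cF h hy i j a c).mul (h.cd_inv hy c b)

theorem cd_ricci (h : Met U G) (hy : y ∈ U) (i j : Fin 3) : ContDiffAt ℝ ∞ (ricci G i j) y :=
  ContDiffAt.sum fun k _ => ((cd_pd k (h.cd_chr hy k i j)).sub (cd_pd j (h.cd_chr hy k i k))).add
    (ContDiffAt.sum fun l _ => ((h.cd_chr hy k k l).mul (h.cd_chr hy l i j)).sub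
      ((h.cd_chr hy k j l).mul (h.cd_chr hy l i k)))

theorem pd_chr_symm (h : Met U G) (hy : y ∈ U) (m i j k : Fin 3) :
    pd m (christoffel G i j k) y = pd m (christoffel G i k j) y := by
  refine (pd_congr m ?_).eq_of_nhds
  filter_upwards [h.opn.mem_nhds hy] with z hz using h.chr_symm hz i j k

theorem cF_ricci (h : Met U G) (hy : y ∈ U) (i j : Fin 3) :
    ∑ k, cF G k j k i y = ricci G i j y := by
  unfold cF ricci
  refine Finset.sum_congr rfl fun k _ => ?_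
  rw [pd_chr_symm h hy k k j i, pd_chr_symm h hy j k k i]
  congr 1
  refine Finset.sum_congr rfl fun l _ => ?_
  rw [h.chr_symm hy l j i, h.chr_symm hy l k i]

theorem pd_cF (h : Met U G) (hy : y ∈ U) (m i j a b : Fin 3) :
    pd m (cF G i j a b) y = pd m (pd i (christoffel G a j b)) y -
      pd m (pd j (christoffel G a i b)) y +
      ∑ l, ((christoffel G a i l y * pd m (christoffel G l j b) y +
        christoffel G l j b y * pd m (christoffel G a i l) y) -
        (christoffel G a j l y * pd m (christoffel G l i b) y +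
        christoffel G l i b y * pd m (christoffel G a j l) y)) := by
  have c := fun a b c => h.cd_chr hy a b c
  have e : cF G i j a b = fun z => (pd i (christoffel G a j b) z - pd j (christoffel G a i b) z) +
      ∑ l, (christoffel G a i l z * christoffel G l j b z -
        christoffel G a j l z * christoffel G l i b z) := rfl
  rw [e, pd_add m (coord_diff ((cd_pd i (c a j b)).sub (cd_pd j (c a i b))))
    (coord_diff (ContDiffAt.sum fun l _ => ((c a i l).mul (c l j b)).sub ((c a j l).mul (c l i b)))),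
    pd_sub m (coord_diff (cd_pd i (c a j b))) (coord_diff (cd_pd j (c a i b))),
    pd_sum m (F := fun l z => christoffel G a i l z * christoffel G l j b z -
        christoffel G a j l z * christoffel G l i b z)
      (fun l => coord_diff (((c a i l).mul (c l j b)).sub ((c a j l).mul (c l i b))))]
  congr 1
  refine Finset.sum_congr rfl fun l _ => ?_
  rw [pd_sub m (coord_diff ((c a i l).mul (c l j b))) (coord_diff ((c a j l).mul (c l i b))),
    pd_mul m (coord_diff (c a i l)) (coord_diff (c l j b)),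
    pd_mul m (coord_diff (c a j l)) (coord_diff (c l i b))]

theorem bianchi_F (h : Met U G) (hy : y ∈ U) (m i j a b : Fin 3) :
    (pd m (cF G i j a b) y + ∑ c, (christoffel G a m c y * cF G i j c b y -
      cF G i j a c y * christoffel G c m b y)) +
    (pd i (cF G j m a b) y + ∑ c, (christoffel G a i c y * cF G j m c b y -
      cF G j m a c y * christoffel G c i b y)) +
    (pd j (cF G m i a b) y + ∑ c, (christoffel G a j c y * cF G m i c b y -
      cF G m i a c y * christoffel G c j b y)) = 0 := by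
  rw [pd_cF h hy, pd_cF h hy, pd_cF h hy, pd_comm m i (h.cd_chr hy a j b),
    pd_comm m j (h.cd_chr hy a i b), pd_comm i j (h.cd_chr hy a m b)]
  simp only [cF, Fin.sum_univ_three]
  ring

theorem pd_cP (h : Met U G) (hy : y ∈ U) (m i j a b : Fin 3) :
    pd m (cP G i j a b) y = ∑ c, (cF G i j a c y *
      -∑ l, (christoffel G c m l y * (G y)⁻¹ l b + christoffel G b m l y * (G y)⁻¹ c l) +
      (G y)⁻¹ c b * pd m (cF G i j a c) y) := by
  have e : cP G i j a b = fun z => ∑ c, cF G i j a c z * (G z)⁻¹ c b := rfl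
  rw [e, pd_sum m (F := fun c z => cF G i j a c z * (G z)⁻¹ c b)
    (fun c => coord_diff ((cd_cF h hy i j a c).mul (h.cd_inv hy c b)))]
  refine Finset.sum_congr rfl fun c _ => ?_
  rw [pd_mul m (coord_diff (cd_cF h hy i j a c)) (coord_diff (h.cd_inv hy c b)), h.pd_inv hy]

theorem bianchi_P (h : Met U G) (hy : y ∈ U) (m i j a b : Fin 3) :
    (pd m (cP G i j a b) y + ∑ c, (christoffel G a m c y * cP G i j c b y +
      christoffel G b m c y * cP G i j a c y)) +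
    (pd i (cP G j m a b) y + ∑ c, (christoffel G a i c y * cP G j m c b y +
      christoffel G b i c y * cP G j m a c y)) +
    (pd j (cP G m i a b) y + ∑ c, (christoffel G a j c y * cP G m i c b y +
      christoffel G b j c y * cP G m i a c y)) = 0 := by
  have h0 := bianchi_F h hy m i j a 0
  have h1 := bianchi_F h hy m i j a 1
  have h2 := bianchi_F h hy m i j a 2
  rw [pd_cP h hy, pd_cP h hy, pd_cP h hy]
  simp only [cP, Fin.sum_univ_three] at h0 h1 h2 ⊢
  linear_combination (G y)⁻¹ 0 b * h0 + (G y)⁻¹ 1 b * h1 + (G y)⁻¹ 2 b * h2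

theorem cP_anti (G : Euc 3 → Matrix (Fin 3) (Fin 3) ℝ) (i j a b : Fin 3) (z : Euc 3) :
    cP G i j a b z = -cP G j i a b z := by
  simp only [cP, cF, Fin.sum_univ_three]
  ring

theorem pd_pd_inv (h : Met U G) (hy : y ∈ U) (i j a b : Fin 3) :
    pd i (pd j fun z => (G z)⁻¹ a b) y =
      -∑ l, ((christoffel G a j l y * pd i (fun z => (G z)⁻¹ l b) y +
        (G y)⁻¹ l b * pd i (christoffel G a j l) y) +
        (christoffel G b j l y * pd i (fun z => (G z)⁻¹ a l) y +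
        (G y)⁻¹ a l * pd i (christoffel G b j l) y)) := by
  have c := fun a b c => h.cd_chr hy a b c
  have v := fun a b => h.cd_inv hy a b
  have e : (pd j fun z => (G z)⁻¹ a b) =ᶠ[𝓝 y] fun z => (0 : ℝ) -
      ∑ l, (christoffel G a j l z * (G z)⁻¹ l b + christoffel G b j l z * (G z)⁻¹ a l) := by
    filter_upwards [h.opn.mem_nhds hy] with z hz
    rw [h.pd_inv hz, zero_sub]
  rw [(pd_congr i e).eq_of_nhds, pd_sub i (differentiableAt_const _)
    (coord_diff (ContDiffAt.sum fun l _ => ((c a j l).mul (v l b)).add ((c b j l).mul (v a l)))),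
    pd_const, zero_sub, pd_sum i (F := fun l z =>
      christoffel G a j l z * (G z)⁻¹ l b + christoffel G b j l z * (G z)⁻¹ a l)
      (fun l => coord_diff (((c a j l).mul (v l b)).add ((c b j l).mul (v a l))))]
  congr 1
  refine Finset.sum_congr rfl fun l _ => ?_
  rw [pd_add i (coord_diff ((c a j l).mul (v l b))) (coord_diff ((c b j l).mul (v a l))),
    pd_mul i (coord_diff (c a j l)) (coord_diff (v l b)),
    pd_mul i (coord_diff (c b j l)) (coord_diff (v a l))]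

theorem cP_anti' (h : Met U G) (hy : y ∈ U) (i j a b : Fin 3) :
    cP G i j a b y = -cP G i j b a y := by
  have e := pd_comm i j (h.cd_inv hy a b)
  rw [pd_pd_inv h hy, pd_pd_inv h hy] at e
  simp only [h.pd_inv hy] at e
  simp only [cP, cF, Fin.sum_univ_three, fun l => h.inv_symm hy l a] at e ⊢
  linear_combination -e

/-- The Ricci tensor with one index up. -/
noncomputable def rho (G : Euc 3 → Matrix (Fin 3) (Fin 3) ℝ) (a i : Fin 3) (z : Euc 3) : ℝ :=
  ∑ c, (G z)⁻¹ a c * ricci G c i z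

theorem cd_rho (h : Met U G) (hy : y ∈ U) (a i : Fin 3) : ContDiffAt ℝ ∞ (rho G a i) y :=
  ContDiffAt.sum fun c _ => (h.cd_inv hy a c).mul (cd_ricci h hy c i)

theorem rho_eq (h : Met U G) (hy : y ∈ U) (a i : Fin 3) :
    ∑ j, cP G i j a j y = rho G a i y := by
  have e : ∀ j, cP G i j a j y = cP G j i j a y := fun j => by
    rw [cP_anti' h hy, cP_anti G i j, neg_neg]
  rw [Finset.sum_congr rfl fun j _ => e j]
  simp only [cP, rho, ← cF_ricci h hy]
  rw [Finset.sum_comm]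
  refine Finset.sum_congr rfl fun c _ => ?_
  rw [← Finset.sum_mul, h.inv_symm hy c a, mul_comm]

theorem pd_neg' {f : Euc 3 → ℝ} (i : Fin 3) : pd i (fun z => -f z) y = -pd i f y := by
  simp only [pd, fderiv_fun_neg, _root_.neg_apply]

/-- The contracted Bianchi identity. -/
theorem bianchi (h : Met U G) (hy : y ∈ U) (i : Fin 3) :
    2 * ∑ a, (pd a (rho G a i) y + ∑ c, (christoffel G a a c y * rho G c i y -
      christoffel G c a i y * rho G a c y)) = ∑ a, pd i (rho G a a) y := by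
  have key := alg_contract (fun k i j => christoffel G k i j y) (fun i j a b => cP G i j a b y)
    (fun m i j a b => pd m (cP G i j a b) y) (fun k i j => h.chr_symm hy k i j)
    (fun i j a b => cP_anti G i j a b y) (fun i j a b => cP_anti' h hy i j a b)
    (fun m i j a b => by
      rw [show cP G i j a b = fun z => -cP G j i a b z from funext fun z => cP_anti G i j a b z,
        pd_neg'])
    (fun m i j a b => by
      rw [← pd_neg']
      refine (pd_congr m ?_).eq_of_nhds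
      filter_upwards [h.opn.mem_nhds hy] with z hz using cP_anti' h hz i j a b)
    (fun m i j a b => bianchi_P h hy m i j a b) i
  have e : ∀ m a i, ∑ j, pd m (cP G i j a j) y = pd m (rho G a i) y := fun m a i => by
    rw [← pd_sum m (F := fun j => cP G i j a j) fun j => coord_diff (cd_cP h hy i j a j)]
    refine (pd_congr m ?_).eq_of_nhds
    filter_upwards [h.opn.mem_nhds hy] with z hz using rho_eq h hz a i
  simpa only [e, rho_eq h hy] using key

theorem ricci_symm (h : Met U G) (hy : y ∈ U) (i j : Fin 3) : ricci G i j y = ricci G j i y := by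
  have e : ∀ k, (fun z => ∑ a, christoffel G a a k z) =ᶠ[𝓝 y]
      pd k fun z => Real.log (dens G z) := fun k => by
    filter_upwards [h.opn.mem_nhds hy] with z hz
    have hp := (h.dens_pos hz).ne'
    rw [pd_comp k (coord_diff (h.cd_dens hz)) (Real.differentiableAt_log hp), h.pd_dens hz,
      Real.deriv_log, inv_mul_cancel_left₀ hp]
  have e2 : ∀ l k, ∑ a, pd l (christoffel G a k a) y =
      pd l (pd k fun z => Real.log (dens G z)) y := fun l k => by
    rw [← (pd_congr l (e k)).eq_of_nhds,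
      pd_sum l (F := fun a => christoffel G a a k) fun a => coord_diff (h.cd_chr hy a a k)]
    exact Finset.sum_congr rfl fun a _ => pd_chr_symm h hy l a k a
  have e3 := (e2 j i).trans ((pd_comm j i ((h.cd_dens hy).log (h.dens_pos hy).ne')).trans
    (e2 i j).symm)
  have a1 : ∑ k, pd k (christoffel G k i j) y = ∑ k, pd k (christoffel G k j i) y :=
    Finset.sum_congr rfl fun k _ => pd_chr_symm h hy k k i j
  have a2 : ∑ k, ∑ l, christoffel G k k l y * christoffel G l i j y =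
      ∑ k, ∑ l, christoffel G k k l y * christoffel G l j i y :=
    Finset.sum_congr rfl fun k _ => Finset.sum_congr rfl fun l _ => by rw [h.chr_symm hy l i j]
  have a3 : ∑ k, ∑ l, christoffel G k j l y * christoffel G l i k y =
      ∑ k, ∑ l, christoffel G k i l y * christoffel G l j k y := by
    rw [Finset.sum_comm]
    exact Finset.sum_congr rfl fun k _ => Finset.sum_congr rfl fun l _ => mul_comm _ _
  simp only [ricci, Finset.sum_add_distrib, Finset.sum_sub_distrib]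
  rw [a1, a2, a3, e3]

/-- The divergence of the Einstein tensor applied to a gradient. -/
theorem dvg_ein (h : Met U G) (hy : y ∈ U) {f : Euc 3 → ℝ} (hf : ContDiffAt ℝ ∞ f y) :
    dvg G (fun a z => ∑ i, rho G a i z * grad G f i z -
      (∑ c, rho G c c z) / 2 * grad G f a z) y =
    ∑ a, ∑ i, rho G a i y * ((G y)⁻¹ * bochner_hess G f y) i a -
      (∑ c, rho G c c y) / 2 * lap G f y := by
  have r := fun a i => cd_rho h hy a i
  have g := fun i => h.cd_grad hy hf i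
  have R : ContDiffAt ℝ ∞ (fun z => (∑ c, rho G c c z) / 2) y :=
    (ContDiffAt.sum fun c _ => r c c).div_const 2
  have eR : ∀ a, pd a (fun z => (∑ c, rho G c c z) / 2) y = (∑ c, pd a (rho G c c) y) / 2 := by
    intro a
    rw [show (fun z => (∑ c, rho G c c z) / 2) = fun z => (∑ c, rho G c c z) * (1 / 2 : ℝ) from
      funext fun z => by ring, pd_mul a (coord_diff (ContDiffAt.sum fun c _ => r c c))
      (differentiableAt_const _), pd_const,
      pd_sum a (F := fun c => rho G c c) fun c => coord_diff (r c c)]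
    ring
  have e : ∀ a, pd a (fun z => ∑ i, rho G a i z * grad G f i z -
      (∑ c, rho G c c z) / 2 * grad G f a z) y =
      ∑ i, (rho G a i y * pd a (grad G f i) y + grad G f i y * pd a (rho G a i) y) -
        ((∑ c, rho G c c y) / 2 * pd a (grad G f a) y +
          grad G f a y * ((∑ c, pd a (rho G c c) y) / 2)) := fun a => by
    rw [pd_sub a (coord_diff (ContDiffAt.sum fun i _ => (r a i).mul (g i)))
      (coord_diff (R.mul (g a))), pd_sum a (F := fun i z => rho G a i z * grad G f i z)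
      (fun i => coord_diff ((r a i).mul (g i))), pd_mul a (coord_diff R) (coord_diff (g a)), eR]
    congr 1
    exact Finset.sum_congr rfl fun i _ => pd_mul a (coord_diff (r a i)) (coord_diff (g i))
  have b0 := bianchi h hy 0
  have b1 := bianchi h hy 1
  have b2 := bianchi h hy 2
  simp only [dvg, lap, e, ← bochner_cov_grad h hy hf, bochner_cov]
  simp only [Fin.sum_univ_three] at b0 b1 b2 ⊢
  linear_combination grad G f 0 y / 2 * b0 + grad G f 1 y / 2 * b1 + grad G f 2 y / 2 * b2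

theorem dens_dvg (h : Met U G) (hy : y ∈ U) {X : Fin 3 → Euc 3 → ℝ}
    (hX : ∀ i, ContDiffAt ℝ ∞ (X i) y) :
    dens G y * dvg G X y = ∑ i, pd i (fun z => dens G z * X i z) y := by
  have e2 : ∀ i, pd i (fun z => dens G z * X i z) y = dens G y *
      (pd i (X i) y + ∑ m, christoffel G m m i y * X i y) := by
    intro i
    rw [pd_mul i (coord_diff (h.cd_dens hy)) (coord_diff (hX i)), h.pd_dens hy,
      ← Finset.sum_mul]
    ring
  simp only [e2, dvg, ← Finset.mul_sum, Finset.sum_add_distrib]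
  rw [Finset.sum_comm]

end Pool.Agent.MP_9bd639_gt.H87

end

-- part MP_9bd639_gt.H87.Chart
section

/-! A compact Riemannian three-manifold carries the abstract curvature package. -/

open MeasureTheory Filter Topology Set Matrix
open scoped ContDiff Manifold

namespace Pool.Agent.MP_9bd639_gt.H87

open Pool.Agent.MP_3fc7f4_gt Pool.Agent.MP_3fc7f4_gt.PointedRiem

section Coord

variable {U : Set (Euc 3)} {G : Euc 3 → Matrix (Fin 3) (Fin 3) ℝ} {y : Euc 3}
  {f k : Euc 3 → ℝ}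

/-- The Ricci tensor as a matrix. -/
noncomputable def ricM (G : Euc 3 → Matrix (Fin 3) (Fin 3) ℝ) (y : Euc 3) :
    Matrix (Fin 3) (Fin 3) ℝ := Matrix.of fun i j => ricci G i j y

theorem pd_gam2 (h : Met U G) (hy : y ∈ U) (hf : ContDiffAt ℝ ∞ f y) (hk : ContDiffAt ℝ ∞ k y)
    (i : Fin 3) : pd i (gam G f k) y = ∑ j, bochner_hess G f y i j * grad G k j y +
      ∑ j, bochner_hess G k y i j * grad G f j y := by
  have e : gam G f k = fun z => ∑ j, pd j f z * grad G k j z := funext fun z =>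
    bochner_gam_eq f k z
  rw [e, pd_sum i (F := fun j z => pd j f z * grad G k j z)
    (fun j => coord_diff ((cd_pd j hf).mul (h.cd_grad hy hk j)))]
  have e1 : ∀ j, pd i (fun z => pd j f z * grad G k j z) y =
      pd j f y * (∑ l, (G y)⁻¹ j l * bochner_hess G k y i l -
        ∑ l, christoffel G j i l y * grad G k l y) + grad G k j y * pd i (pd j f) y := by
    intro j
    rw [pd_mul i (coord_diff (cd_pd j hf)) (coord_diff (h.cd_grad hy hk j))]
    have a := bochner_cov_grad h hy hk j i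
    rw [Matrix.mul_apply] at a
    unfold bochner_cov at a
    simp only [fun l => (bochner_hess_symm h hy hk).apply i l] at a
    rw [← a]
    ring
  have e2 : ∀ j, grad G f j y = ∑ l, (G y)⁻¹ l j * pd l f y := fun j =>
    Finset.sum_congr rfl fun l _ => by rw [h.inv_symm hy j l]
  have e3 : ∀ j, bochner_hess G f y i j =
      pd i (pd j f) y - ∑ l, christoffel G l i j y * pd l f y := fun j => rfl
  simp only [e1, e2, e3, Fin.sum_univ_three]
  ring

theorem hess_add (hf : ContDiffAt ℝ ∞ f y) (hk : ContDiffAt ℝ ∞ k y) :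
    bochner_hess G (fun z => f z + k z) y = bochner_hess G f y + bochner_hess G k y := by
  ext i j
  have e : pd j (fun z => f z + k z) =ᶠ[𝓝 y] fun z => pd j f z + pd j k z := by
    filter_upwards [coord_ev hf, coord_ev hk] with z h1 h2 using pd_add j h1 h2
  simp only [bochner_hess, Matrix.add_apply, of_apply]
  rw [(pd_congr i e).eq_of_nhds, pd_add i (coord_diff (cd_pd j hf)) (coord_diff (cd_pd j hk))]
  simp only [pd_add _ (coord_diff hf) (coord_diff hk), Fin.sum_univ_three]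
  ring

theorem hess_zero (h : f =ᶠ[𝓝 y] fun _ => 0) : bochner_hess G f y = 0 := by
  ext i j
  have e : pd j f =ᶠ[𝓝 y] fun _ => 0 := by
    filter_upwards [pd_congr j h] with z hz
    rw [hz, pd_const]
  simp [bochner_hess, int_pd_zero _ e, int_pd_zero _ h]

theorem cd_hess (h : Met U G) (hy : y ∈ U) (hf : ContDiffAt ℝ ∞ f y) (i j : Fin 3) :
    ContDiffAt ℝ ∞ (fun z => bochner_hess G f z i j) y :=
  (cd_pd i (cd_pd j hf)).sub (ContDiffAt.sum fun l _ => (h.cd_chr hy l i j).mul (cd_pd l hf))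

theorem cd_mul {A B : Euc 3 → Matrix (Fin 3) (Fin 3) ℝ}
    (hA : ∀ i j, ContDiffAt ℝ ∞ (fun z => A z i j) y)
    (hB : ∀ i j, ContDiffAt ℝ ∞ (fun z => B z i j) y) (i j : Fin 3) :
    ContDiffAt ℝ ∞ (fun z => (A z * B z) i j) y := by
  simp only [Matrix.mul_apply]
  exact ContDiffAt.sum fun l _ => (hA i l).mul (hB l j)

theorem cd_trace {A : Euc 3 → Matrix (Fin 3) (Fin 3) ℝ}
    (hA : ∀ i j, ContDiffAt ℝ ∞ (fun z => A z i j) y) :
    ContDiffAt ℝ ∞ (fun z => (A z).trace) y :=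
  ContDiffAt.sum fun i _ => hA i i

theorem dot_factor (B : Matrix (Fin 3) (Fin 3) ℝ) (a b : Fin 3 → ℝ) :
    (B *ᵥ a) ⬝ᵥ (B *ᵥ b) = a ⬝ᵥ ((Bᵀ * B) *ᵥ b) := by
  rw [← mulVec_mulVec, dotProduct_mulVec a, vecMul_transpose]

theorem dot_conj (B H : Matrix (Fin 3) (Fin 3) ℝ) (a b : Fin 3 → ℝ) :
    (B *ᵥ a) ⬝ᵥ ((B * H * Bᵀ) *ᵥ (B *ᵥ b)) =
      ((Bᵀ * B) *ᵥ a) ⬝ᵥ (H *ᵥ ((Bᵀ * B) *ᵥ b)) := by
  rw [← mulVec_mulVec a, dotProduct_comm (Bᵀ *ᵥ _), dotProduct_mulVec (H *ᵥ _), vecMul_transpose,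
    dotProduct_comm]
  simp only [mulVec_mulVec, Matrix.mul_assoc]

theorem trace_factor (B A C : Matrix (Fin 3) (Fin 3) ℝ) :
    (B * A * Bᵀ * (B * C * Bᵀ)).trace = (Bᵀ * B * A * (Bᵀ * B * C)).trace := by
  rw [show Bᵀ * B * A * (Bᵀ * B * C) = Bᵀ * (B * A * Bᵀ * (B * C)) by
    simp only [Matrix.mul_assoc], trace_mul_comm Bᵀ]
  simp only [Matrix.mul_assoc]

end Coord

variable {N : PointedRiem 3}

theorem exists_grad {x z : N.M} (hz : z ∈ (N.ch x).source) (w : Fin 3 → ℝ) :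
    ∃ f, N.Sm f ∧ ∀ j, pd j (N.loc x f) (N.ch x z) = w j := by
  have hy := (N.ch x).map_source hz
  obtain ⟨b, hb1, hb2, hb3, -, hb4⟩ := exists_contDiff_tsupport_subset (n := ⊤)
    ((N.ch x).open_target.mem_nhds hy)
  set L : Euc 3 →L[ℝ] ℝ := ∑ j, w j • EuclideanSpace.proj j with hL
  set φ : Euc 3 → ℝ := fun y => b y * (L y - L (N.ch x z)) with hφ
  have hs : ContDiff ℝ ∞ φ := hb3.mul (L.contDiff.sub contDiff_const)
  obtain ⟨h1, -, -⟩ := ext_test x (φ := φ) hs.contDiffOn hb2.mul_right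
    (tsupport_mul_subset_left.trans hb1)
  refine ⟨N.ext x φ, h1, fun j => ?_⟩
  have e : N.loc x (N.ext x φ) =ᶠ[𝓝 (N.ch x z)] φ := by
    filter_upwards [(N.ch x).open_target.mem_nhds hy] with y hy using loc_ext x φ hy
  rw [(pd_congr j e).eq_of_nhds, hφ, pd_mul j (coord_diff hb3.contDiffAt)
    (L.differentiableAt.sub_const _), hb4, sub_self, zero_mul, add_zero, one_mul,
    pd_sub j L.differentiableAt (differentiableAt_const _), pd_const, sub_zero, pd,
    L.fderiv]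
  simp [hL, bas]

theorem loc_Γ2 {f k : N.M → ℝ} (hf : N.Sm f) (hk : N.Sm k) {x z : N.M}
    (hz : z ∈ (N.ch x).source) :
    N.loc x (N.Γ f k) =ᶠ[𝓝 (N.ch x z)] gam (coef x) (N.loc x f) (N.loc x k) := by
  filter_upwards [(N.ch x).open_target.mem_nhds ((N.ch x).map_source hz)] with y hy
  rw [loc, Γ_chart hf hk ((N.ch x).map_target hy), (N.ch x).right_inv hy]

theorem loc_Δ2 {f : N.M → ℝ} (hf : N.Sm f) {x z : N.M} (hz : z ∈ (N.ch x).source) :
    N.loc x (N.Δ f) =ᶠ[𝓝 (N.ch x z)] lap (coef x) (N.loc x f) := by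
  filter_upwards [(N.ch x).open_target.mem_nhds ((N.ch x).map_source hz)] with y hy
  rw [loc, Δ_chart hf ((N.ch x).map_target hy), (N.ch x).right_inv hy]

/-- The model given by the chart at x. -/
theorem exists_model {x z : N.M} (hz : z ∈ (N.ch x).source) :
    ∃ (m : Model N.Sm N.Γ N.Δ z) (B : Matrix (Fin 3) (Fin 3) ℝ),
      (coef x (N.ch x z))⁻¹ = Bᵀ * B ∧ m.r = B * ricM (coef x) (N.ch x z) * Bᵀ ∧
      ∀ f, m.h f = B * bochner_hess (coef x) (N.loc x f) (N.ch x z) * Bᵀ := by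
  have hy := (N.ch x).map_source hz
  have hM := met x
  set y := N.ch x z with hyd
  set G := coef (n := 3) x with hG
  obtain ⟨B, hB⟩ := bochner_factor (hM.pos y hy).inv
  have hg : ∀ f : N.M → ℝ, (Bᵀ * B) *ᵥ (fun j => pd j (N.loc x f) y) =
      fun j => grad G (N.loc x f) j y := fun f => by rw [← hB]; rfl
  have hΓ : ∀ f k : Euc 3 → ℝ,
      gam G f k y = (fun j => pd j f y) ⬝ᵥ fun j => grad G k j y := fun f k =>
    bochner_gam_eq f k y
  refine ⟨⟨B * ricM G y * Bᵀ, fun f => B *ᵥ fun j => pd j (N.loc x f) y,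
    fun f => B * bochner_hess G (N.loc x f) y * Bᵀ, bochner_symm ?_,
    fun f hf => bochner_symm (bochner_hess_symm hM hy (hf.cd_loc x hy)),
    fun f k hf hk => ⟨ContMDiff.add hf hk, ?_⟩, fun f k hf hk => ?_, fun f hf => ?_,
    fun f k l hf hk hl => ?_, fun f hf => ?_, fun v => ?_⟩, B, hB, rfl, fun _ => rfl⟩
  · ext i j
    exact ricci_symm hM hy j i
  · rw [← mulVec_add]
    congr 1
    funext j
    exact pd_add j (coord_diff (hf.cd_loc x hy)) (coord_diff (hk.cd_loc x hy))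
  · rw [Γ_chart hf hk hz, dot_factor, hg, hΓ]
  · rw [Δ_chart hf hz, trace_mul_comm, ← Matrix.mul_assoc, ← hB]
    have e : lap G (N.loc x f) y = ∑ i, bochner_cov G (grad G (N.loc x f)) i i y := rfl
    rw [e]
    simp only [bochner_cov_grad hM hy (hf.cd_loc x hy)]
    rfl
  · rw [Γ_chart (sm_Γ hf hk) hl hz, gam_congr (loc_Γ2 hf hk hz) EventuallyEq.rfl, dot_conj,
      dot_conj, hg, hg, hg, hΓ, ← hG]
    simp only [pd_gam2 hM hy (hf.cd_loc x hy) (hk.cd_loc x hy), dotProduct, mulVec,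
      Fin.sum_univ_three]
    ring
  · rw [Δ_chart (sm_Γ hf hf) hz, Γ_chart hf (sm_Δ hf) hz, lap_congr (loc_Γ2 hf hf hz),
      gam_congr EventuallyEq.rfl (loc_Δ2 hf hz),
      bochner_formula hM hy fun w hw => (hf.cd_loc x hw).contDiffWithinAt, trace_factor, dot_conj,
      hg, ← hB]
    simp only [ricM, dotProduct, mulVec, of_apply, Fin.sum_univ_three]
    ring
  · have hu : IsUnit B.det := by
      have h1 := (hM.pos y hy).inv.det_pos
      rw [hB, det_mul, det_transpose] at h1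
      exact isUnit_iff_ne_zero.2 fun h0 => by simp [h0] at h1
    obtain ⟨f, hf, hf'⟩ := exists_grad hz (B⁻¹ *ᵥ v)
    refine ⟨f, hf, ?_⟩
    rw [show (fun j => pd j (N.loc x f) y) = B⁻¹ *ᵥ v from funext hf', mulVec_mulVec,
      Matrix.mul_nonsing_inv _ hu, one_mulVec]

/-- The inner product of the Ricci tensor with the Hessian of f. -/
noncomputable def RH (N : PointedRiem 3) (f : N.M → ℝ) (z : N.M) : ℝ :=
  (ricEnd N z * ((coef z (N.ch z z))⁻¹ * bochner_hess (coef z) (N.loc z f) (N.ch z z))).trace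

theorem model_chart {x z : N.M} (hz : z ∈ (N.ch x).source) :
    ∃ m : Model N.Sm N.Γ N.Δ z,
      m.r.trace = ((coef x (N.ch x z))⁻¹ * ricM (coef x) (N.ch x z)).trace ∧
      (m.r * m.r).trace = ((coef x (N.ch x z))⁻¹ * ricM (coef x) (N.ch x z) *
        ((coef x (N.ch x z))⁻¹ * ricM (coef x) (N.ch x z))).trace ∧
      ∀ f, (m.r * m.h f).trace = ((coef x (N.ch x z))⁻¹ * ricM (coef x) (N.ch x z) *
        ((coef x (N.ch x z))⁻¹ * bochner_hess (coef x) (N.loc x f) (N.ch x z))).trace := by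
  obtain ⟨m, B, hB, hr, hh⟩ := exists_model hz
  refine ⟨m, ?_, ?_, fun f => ?_⟩
  · rw [hr, hB, trace_mul_comm, Matrix.mul_assoc]
  · rw [hr, hB, trace_factor]
  · rw [hr, hh, hB, trace_factor]

theorem model_self (z : N.M) : ∃ m : Model N.Sm N.Γ N.Δ z, m.r.trace = scal N z ∧
    (m.r * m.r).trace = ricSq N z ∧ ∀ f, (m.r * m.h f).trace = RH N f z :=
  model_chart (mem_chart_source _ z)

theorem inv_chart {x z : N.M} (hz : z ∈ (N.ch x).source) :
    scal N z = ((coef x (N.ch x z))⁻¹ * ricM (coef x) (N.ch x z)).trace ∧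
    ricSq N z = ((coef x (N.ch x z))⁻¹ * ricM (coef x) (N.ch x z) *
      ((coef x (N.ch x z))⁻¹ * ricM (coef x) (N.ch x z))).trace ∧
    ∀ f, N.Sm f → RH N f z = ((coef x (N.ch x z))⁻¹ * ricM (coef x) (N.ch x z) *
      ((coef x (N.ch x z))⁻¹ * bochner_hess (coef x) (N.loc x f) (N.ch x z))).trace := by
  obtain ⟨m, a1, a2, a3⟩ := model_self z
  obtain ⟨m', b1, b2, b3⟩ := model_chart hz
  obtain ⟨c1, c2, c3⟩ := m.inv m'
  exact ⟨by rw [← a1, c1, b1], by rw [← a2, c2, b2], fun f hf => by rw [← a3, c3 f hf, b3]⟩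

theorem sm_of_chart {F : N.M → ℝ} (Φ : N.M → Euc 3 → ℝ)
    (h1 : ∀ x, ContDiffAt ℝ ∞ (Φ x) (N.ch x x))
    (h2 : ∀ x, ∀ z ∈ (N.ch x).source, F z = Φ x (N.ch x z)) : N.Sm F :=
  sm_of_local fun z _ => ⟨z, mem_chart_source _ z, Φ z, (h1 z).of_le (by exact_mod_cast le_top),
    mem_of_superset (chart_source_mem_nhds _ z) fun w hw => h2 z w hw⟩

theorem cd_ricEnd (x : N.M) {y : Euc 3} (hy : y ∈ (N.ch x).target) (i j : Fin 3) :
    ContDiffAt ℝ ∞ (fun w => ((coef x w)⁻¹ * ricM (coef x) w) i j) y :=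
  cd_mul ((met x).cd_inv hy) (cd_ricci (met x) hy) i j

theorem sm_scal : N.Sm (scal N) :=
  sm_of_chart (fun x w => ((coef x w)⁻¹ * ricM (coef x) w).trace)
    (fun x => cd_trace (cd_ricEnd x (mem_target x))) fun _ _ hz => (inv_chart hz).1

theorem sm_ricSq : N.Sm (ricSq N) :=
  sm_of_chart (fun x w => ((coef x w)⁻¹ * ricM (coef x) w *
      ((coef x w)⁻¹ * ricM (coef x) w)).trace)
    (fun x => cd_trace (cd_mul (cd_ricEnd x (mem_target x)) (cd_ricEnd x (mem_target x))))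
    fun _ _ hz => (inv_chart hz).2.1

theorem sm_RH {f : N.M → ℝ} (hf : N.Sm f) : N.Sm (RH N f) :=
  sm_of_chart (fun x w => ((coef x w)⁻¹ * ricM (coef x) w *
      ((coef x w)⁻¹ * bochner_hess (coef x) (N.loc x f) w)).trace)
    (fun x => cd_trace (cd_mul (cd_ricEnd x (mem_target x)) (cd_mul
      ((met x).cd_inv (mem_target x)) (cd_hess (met x) (mem_target x) (hf.cd x)))))
    fun _ _ hz => (inv_chart hz).2.2 f hf

theorem RH_add {f k : N.M → ℝ} (hf : N.Sm f) (hk : N.Sm k) (z : N.M) :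
    RH N (fun w => f w + k w) z = RH N f z + RH N k z := by
  have e := hess_add (G := coef z) (hf.cd z) (hk.cd z)
  unfold RH
  rw [← trace_add, ← Matrix.mul_add, ← Matrix.mul_add, ← e]
  rfl

theorem ein_zero {φ : N.M → ℝ} {z : N.M} (hz : z ∉ tsupport φ) :
    RH N φ z - scal N z / 2 * N.Δ φ z = 0 := by
  have e := int_loc_zero (mem_chart_source _ z) hz
  have e2 : N.Δ φ z = 0 := by
    have h1 : N.Δ φ z = lap (coef z) (fun _ => 0) (N.ch z z) := lap_congr e
    have h2 : grad (coef (n := 3) z) (fun _ => (0 : ℝ)) = fun _ _ => 0 :=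
      funext fun i => funext fun w => by simp [grad, pd_const]
    rw [h1, lap, h2]
    simp [dvg, pd_const]
  rw [e2, RH, hess_zero e]
  simp

theorem sm_ein {f : N.M → ℝ} (hf : N.Sm f) :
    Continuous fun z => RH N f z - scal N z / 2 * N.Δ f z :=
  (sm_RH hf).continuous.sub ((sm_scal.continuous.div_const 2).mul (sm_Δ hf).continuous)

theorem ein_chart (x : N.M) {φ : N.M → ℝ} (hφ : N.Sm φ) (hc : HasCompactSupport φ)
    (hs : tsupport φ ⊆ (N.ch x).source) :
    ∫ z, (RH N φ z - scal N z / 2 * N.Δ φ z) ∂N.vol = 0 := by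
  have hT := (N.ch x).open_target
  have hM := met x
  set X : Fin 3 → Euc 3 → ℝ := fun a w => ∑ i, rho (coef x) a i w * grad (coef x) (N.loc x φ) i w -
    (∑ c, rho (coef x) c c w) / 2 * grad (coef x) (N.loc x φ) a w with hX
  have hXd : ∀ y ∈ (N.ch x).target, ∀ a, ContDiffAt ℝ ∞ (X a) y := fun y hy a =>
    (ContDiffAt.sum fun i _ => (cd_rho hM hy a i).mul (hM.cd_grad hy (hφ.cd_loc x hy) i)).sub
      (((ContDiffAt.sum fun c _ => cd_rho hM hy c c).div_const 2).mul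
        (hM.cd_grad hy (hφ.cd_loc x hy) a))
  have hK : IsCompact (N.ch x '' tsupport φ) :=
    hc.isCompact.image_of_continuousOn ((N.ch x).continuousOn.mono hs)
  have hKT : N.ch x '' tsupport φ ⊆ (N.ch x).target := by
    rintro _ ⟨z, hz, rfl⟩
    exact (N.ch x).map_source (hs hz)
  have hz : ∀ y ∈ (N.ch x).target \ N.ch x '' tsupport φ, N.loc x φ =ᶠ[𝓝 y] fun _ => 0 := by
    intro y hy
    have := int_loc_zero (φ := φ) ((N.ch x).map_target hy.1) fun h =>
      hy.2 ⟨_, h, (N.ch x).right_inv hy.1⟩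
    rwa [(N.ch x).right_inv hy.1] at this
  have h1 := fun i => int_integral_pd hT hK hKT (ψ := fun y => dens (coef x) y * X i y)
    (fun y hy => (hM.cd_dens hy).mul (hXd y hy i))
    (fun y hy => by simp [hX, grad, int_pd_zero _ (hz y hy)]) i
  rw [← setIntegral_eq_integral_of_forall_compl_eq_zero (s := (N.ch x).source) fun z hz =>
    ein_zero fun h => hz (hs h), integral_chart x (sm_ein hφ).aestronglyMeasurable,
    setIntegral_congr_fun hT.measurableSet
      (g := fun y => ∑ i, pd i (fun y => dens (coef x) y * X i y) y) fun y hy => ?_,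
    integral_finsetSum _ fun i _ => (h1 i).1]
  · simp [fun i => (h1 i).2]
  · have hw := (N.ch x).map_target hy
    obtain ⟨a1, -, a3⟩ := inv_chart hw
    simp only [loc]
    rw [← dens_dvg hM hy (hXd y hy), hX, dvg_ein hM hy (hφ.cd_loc x hy), a1, a3 φ hφ,
      Δ_chart hφ hw, (N.ch x).right_inv hy]
    rfl

variable [CompactSpace N.M]

theorem bianchi_int {f : N.M → ℝ} (hf : N.Sm f) :
    ∫ z, (RH N f z - scal N z / 2 * N.Δ f z) ∂N.vol = 0 := by
  classical
  obtain ⟨S, ρ, hρ, -, h1⟩ := exists_partition (N := N) isCompact_univ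
    (V := fun x => (N.ch x).source) fun x => chart_source_mem_nhds _ x
  have sψ : ∀ x, N.Sm fun z => ρ x z * f z := fun x => ContMDiff.mul (hρ x).1 hf
  have key : ∀ T : Finset N.M, N.Sm (fun z => ∑ x ∈ T, ρ x z * f z) ∧
      ∫ z, (RH N (fun z => ∑ x ∈ T, ρ x z * f z) z -
        scal N z / 2 * N.Δ (fun z => ∑ x ∈ T, ρ x z * f z) z) ∂N.vol = 0 := by
    intro T
    induction T using Finset.induction_on with
    | empty =>
      refine ⟨contMDiff_const (c := (0 : ℝ)), ?_⟩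
      rw [← integral_zero N.M ℝ (μ := N.vol)]
      exact integral_congr_ae (Eventually.of_forall fun z => ein_zero (by simp))
    | insert a T ha ih =>
      simp only [Finset.sum_insert ha]
      refine ⟨ContMDiff.add (sψ a) ih.1, ?_⟩
      have e := ein_chart a (sψ a) (hρ a).2.1.mul_right
        (tsupport_mul_subset_left.trans (hρ a).2.2.1)
      rw [← add_zero (0 : ℝ)]
      nth_rewrite 1 [← e]
      rw [← ih.2, ← integral_add
        ((sm_ein (sψ a)).integrable_of_hasCompactSupport (HasCompactSupport.of_compactSpace _))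
        ((sm_ein ih.1).integrable_of_hasCompactSupport (HasCompactSupport.of_compactSpace _))]
      refine integral_congr_ae (Eventually.of_forall fun z => ?_)
      have e2 : N.Δ (fun w => ρ a w * f w + ∑ x ∈ T, ρ x w * f w) z =
          N.Δ (fun w => ρ a w * f w) z + N.Δ (fun w => ∑ x ∈ T, ρ x w * f w) z :=
        (met z).lap_add (mem_target z) ((sψ a).cd z) (ih.1.cd z)
      simp only
      rw [RH_add (sψ a) ih.1, e2]
      ring
  have e : (fun z => ∑ x ∈ S, ρ x z * f z) = f := funext fun z => by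
    rw [← Finset.sum_mul, h1 z (mem_univ z), one_mul]
  have := (key S).2
  rwa [e] at this

theorem exists_ricciGe : ∃ lam : ℝ, 0 ≤ lam ∧ RicciGe 3 N.M (-lam) := by
  obtain ⟨C, hC⟩ := isCompact_univ.exists_bound_of_continuousOn
    (sm_ricSq (N := N)).continuous.continuousOn
  refine ⟨|C| + 1, by positivity, fun z v => ?_⟩
  obtain ⟨m, B, hB, hr, -⟩ := exists_model (mem_chart_source _ z)
  have hM := met z
  have hy := mem_target z
  set G := coef (n := 3) z (N.ch z z) with hG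
  have e0 : (Bᵀ * B) *ᵥ (G *ᵥ v) = v := by
    rw [← hB, mulVec_mulVec, Matrix.nonsing_inv_mul _ (hM.coord_unit hy), one_mulVec]
  have e1 : (B *ᵥ (G *ᵥ v)) ⬝ᵥ (B *ᵥ (G *ᵥ v)) = ∑ i, ∑ j, G i j * v i * v j := by
    rw [dot_factor, e0]
    simp only [dotProduct, mulVec, Fin.sum_univ_three]
    ring
  have e2 : (B *ᵥ (G *ᵥ v)) ⬝ᵥ (m.r *ᵥ (B *ᵥ (G *ᵥ v))) =
      ∑ i, ∑ j, ricci (coef z) i j (N.ch z z) * v i * v j := by
    rw [hr, dot_conj, e0]
    simp only [ricM, dotProduct, mulVec, of_apply, Fin.sum_univ_three]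
    ring
  have e3 : (m.r * m.r).trace = ricSq N z := by
    rw [hr, trace_factor, ← hB]
    rfl
  have h1 := quad_sq_le m.r_symm (B *ᵥ (G *ᵥ v)) (B *ᵥ (G *ᵥ v))
  rw [e1, e2, e3] at h1
  have h2 := hM.coord_nonneg hy v
  have h3 : ricSq N z ≤ (|C| + 1) ^ 2 := by
    have := (le_abs_self _).trans ((hC z (mem_univ z)).trans (le_abs_self C))
    nlinarith [abs_nonneg C]
  set a := ∑ i, ∑ j, G i j * v i * v j
  have h4 := abs_le_of_sq_le_sq' (a := ∑ i, ∑ j, ricci (coef z) i j (N.ch z z) * v i * v j)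
    (b := (|C| + 1) * a) (by nlinarith [mul_nonneg h2 h2]) (by positivity)
  linarith [h4.1]

/-- The curvature package of a compact Riemannian three-manifold. -/
noncomputable def curv {lam : ℝ} (h0 : 0 ≤ lam) (hR : RicciGe 3 N.M (-lam)) :
    Curv (N.geo (by norm_num) h0 hR) where
  σ := sigma1 N
  q := ricSq N
  RH := RH N
  sm_σ := by
    have e : sigma1 N = fun z => scal N z * (1 / 4) := funext fun z => by rw [sigma1]; ring
    rw [e]
    exact ContMDiff.mul sm_scal contMDiff_const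
  cont_q := sm_ricSq.continuous
  cont_RH _ hf := (sm_RH hf).continuous
  bianchi f hf := by
    have e := bianchi_int (N := N) hf
    have c1 : Continuous fun z => scal N z / 2 * N.Δ f z :=
      (sm_scal.continuous.div_const 2).mul (sm_Δ hf).continuous
    rw [integral_sub ((sm_RH hf).continuous.integrable_of_hasCompactSupport
      (HasCompactSupport.of_compactSpace _)) (c1.integrable_of_hasCompactSupport
      (HasCompactSupport.of_compactSpace _)), sub_eq_zero] at e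
    rw [e]
    refine integral_congr_ae (Eventually.of_forall fun z => ?_)
    change scal N z / 2 * N.Δ f z = 2 * (scal N z / 4) * N.Δ f z
    ring
  model z := by
    obtain ⟨m, a1, a2, a3⟩ := model_self z
    refine ⟨m, ?_, a2, fun f _ => a3 f⟩
    rw [a1, sigma1]
    ring
  part ρ hρ := by
    obtain ⟨S, ψ, h1, -, h2⟩ := exists_partition (N := N) isCompact_univ
      (V := fun x => Metric.ball x ρ) fun x => Metric.ball_mem_nhds x hρ
    exact ⟨S, ψ, fun x => ⟨(h1 x).1, (h1 x).2.2.2, fun z hz =>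
      (Metric.mem_ball'.1 ((h1 x).2.2.1 (subset_tsupport _ hz))).le⟩, fun z => h2 z (mem_univ z)⟩

end Pool.Agent.MP_9bd639_gt.H87

end

-- part MP_9bd639_gt.H87.Star
section

/-! The integral identity for σ₂ of the tensor A - Hess f + (1/2) df ⊗ df, the resulting weak
lower curvature bound, and the estimate of the error term in the Bochner formula. -/

open MeasureTheory Filter Topology Set Matrix

namespace Pool.Agent.MP_9bd639_gt.H87

open Pool.Agent.MP_3fc7f4_gt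

variable {M : Type} [MetricSpace M] [CompactSpace M] [MeasurableSpace M] [BorelSpace M]
  {μ : Measure M} [IsFiniteMeasure μ] {lam : ℝ} {g : Geo M μ 3 lam} {f l v w φ : M → ℝ}

theorem intg {F : M → ℝ} (hF : Continuous F) : Integrable F μ :=
  hF.integrable_of_hasCompactSupport (HasCompactSupport.of_compactSpace F)

omit [BorelSpace M] [IsFiniteMeasure μ] in
theorem ibp' (hφ : g.Sm φ) (hf : g.Sm f) : ∫ x, φ x * g.Δ f x ∂μ = -∫ x, g.Γ φ f x ∂μ :=
  g.ibp hφ (HasCompactSupport.of_compactSpace φ) hf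

omit [BorelSpace M] [IsFiniteMeasure μ] in
theorem int_Δ (hf : g.Sm f) : ∫ x, g.Δ f x ∂μ = 0 := by
  simpa [g.Γ_const 1 hf] using ibp' (g.sm_const 1) hf

omit [BorelSpace M] [IsFiniteMeasure μ] in
theorem ibp_swap (hφ : g.Sm φ) (hf : g.Sm f) :
    ∫ x, φ x * g.Δ f x ∂μ = ∫ x, f x * g.Δ φ x ∂μ := by
  rw [ibp' hφ hf, ibp' hf hφ]
  simp only [g.Γ_symm hφ hf]

/-- An integral inequality from a pointwise one and a list of vanishing integrals. -/
theorem int_le_of {F G Z : M → ℝ} (hF : Continuous F) (hG : Continuous G) (hZ : Continuous Z)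
    (h0 : ∫ x, Z x ∂μ = 0) (h : ∀ x, F x ≤ G x + Z x) : ∫ x, F x ∂μ ≤ ∫ x, G x ∂μ := by
  have := integral_mono (μ := μ) (intg hF) ((intg hG).add (intg hZ)) h
  rwa [integral_add' (intg hG) (intg hZ), h0, add_zero] at this

variable (g) in
/-- The iterated form Γ₂. -/
noncomputable def G2 (f : M → ℝ) (x : M) : ℝ := g.Δ (g.Γ f f) x / 2 - g.Γ f (g.Δ f) x

variable (g) in
/-- An upper bound of the squared norm of the Hessian of l. -/
noncomputable def H2 (f w l : M → ℝ) (x : M) : ℝ :=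
  G2 g l x - (g.Γ (g.Γ f l) l x - g.Γ (g.Γ l l) f x / 2) + w x * g.Γ l l x

variable (g) in
/-- The weak curvature bound Ric - Hess f ≥ -w. -/
structure WC (f w : M → ℝ) : Prop where
  sm : g.Sm f
  cont : Continuous w
  nonneg : ∀ x, 0 ≤ w x
  a : ∀ l, g.Sm l → ∀ x, g.Δ l x ^ 2 ≤ 3 * H2 g f w l x
  b : ∀ l, g.Sm l → ∀ x, g.Γ (g.Γ l l) l x ^ 2 ≤ 4 * H2 g f w l x * g.Γ l l x * g.Γ l l x
  c : ∀ l, g.Sm l → ∀ x, g.Γ (g.Γ l l) f x ^ 2 ≤ 4 * H2 g f w l x * g.Γ l l x * g.Γ f f x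

omit [CompactSpace M] [BorelSpace M] [IsFiniteMeasure μ] in
theorem cont_G2 (hf : g.Sm f) : Continuous (G2 g f) :=
  ((g.cont (g.sm_Δ (g.sm_Γ hf hf))).div_const 2).sub (g.cont (g.sm_Γ hf (g.sm_Δ hf)))

omit [CompactSpace M] [BorelSpace M] [IsFiniteMeasure μ] in
theorem cont_H2 (hf : g.Sm f) (hw : Continuous w) (hl : g.Sm l) : Continuous (H2 g f w l) :=
  ((cont_G2 hl).sub ((g.cont (g.sm_Γ (g.sm_Γ hf hl) hl)).sub
    ((g.cont (g.sm_Γ (g.sm_Γ hl hl) hf)).div_const 2))).add (hw.mul (g.cont (g.sm_Γ hl hl)))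

theorem int_G2 (hf : g.Sm f) : ∫ x, (g.Δ f x ^ 2 - G2 g f x) ∂μ = 0 := by
  have c1 := g.cont (g.sm_Δ (g.sm_Γ hf hf))
  have c2 := g.cont (g.sm_Γ hf (g.sm_Δ hf))
  have c3 := g.cont (g.sm_Δ hf)
  have e := ibp' (g.sm_Δ hf) hf
  simp only [g.Γ_symm (g.sm_Δ hf) hf, ← sq] at e
  rw [integral_sub (intg (by fun_prop)) (intg (cont_G2 hf))]
  unfold G2
  rw [integral_sub (intg (c1.div_const 2)) (intg c2), integral_div, int_Δ (g.sm_Γ hf hf), e]
  ring

/-- The traceless part of A - h + (1/2) ξ ξᵀ. -/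
noncomputable def errM (r h : Matrix (Fin 3) (Fin 3) ℝ) (ξ : Fin 3 → ℝ) (σ : ℝ) :
    Matrix (Fin 3) (Fin 3) ℝ :=
  r - h + (1 / 2 : ℝ) • vecMulVec ξ ξ - (σ + (σ - h.trace + ξ ⬝ᵥ ξ / 2) / 3) • 1

theorem errM_symm {r h : Matrix (Fin 3) (Fin 3) ℝ} (hr : r.IsSymm) (hh : h.IsSymm)
    (ξ : Fin 3 → ℝ) (σ : ℝ) : (errM r h ξ σ).IsSymm := by
  refine ((hr.sub hh).add (IsSymm.smul ?_ _)).sub (isSymm_one.smul _)
  ext i j
  simp [vecMulVec_apply, mul_comm]

theorem errM_sq {r h : Matrix (Fin 3) (Fin 3) ℝ} {ξ : Fin 3 → ℝ} {σ : ℝ} (hσ : r.trace = 4 * σ) :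
    (errM r h ξ σ * errM r h ξ σ).trace = (r * r).trace - 5 * σ ^ 2 +
      ((h * h).trace + ξ ⬝ᵥ (r *ᵥ ξ)) - σ * (ξ ⬝ᵥ ξ) + (ξ ⬝ᵥ ξ) ^ 2 / 4 - 2 * (r * h).trace +
      2 * σ * h.trace - ξ ⬝ᵥ (h *ᵥ ξ) - (σ - h.trace + ξ ⬝ᵥ ξ / 2) ^ 2 / 3 := by
  have e : σ = r.trace / 4 := by linarith
  subst e
  simp [errM, trace, Matrix.mul_apply, vecMulVec_apply, dotProduct, mulVec, Fin.sum_univ_three,
    Matrix.one_apply]
  ring

theorem errM_quad (r h : Matrix (Fin 3) (Fin 3) ℝ) (ξ a : Fin 3 → ℝ) (σ : ℝ) :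
    a ⬝ᵥ (errM r h ξ σ *ᵥ a) = a ⬝ᵥ (r *ᵥ a) - a ⬝ᵥ (h *ᵥ a) + (ξ ⬝ᵥ a) ^ 2 / 2 -
      (σ + (σ - h.trace + ξ ⬝ᵥ ξ / 2) / 3) * (a ⬝ᵥ a) := by
  simp [errM, trace, vecMulVec_apply, dotProduct, mulVec, Fin.sum_univ_three, Matrix.one_apply]
  ring

namespace Curv

variable (c : Curv g)

/-- The potential σ₁ - Δ f - |∇f|² / 2. -/
noncomputable def pot (f : M → ℝ) (x : M) : ℝ := c.σ x - g.Δ f x - g.Γ f f x / 2

/-- The squared norm of the traceless part. -/
noncomputable def err (f : M → ℝ) (x : M) : ℝ :=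
  c.q x - 5 * c.σ x ^ 2 + G2 g f x - c.σ x * g.Γ f f x + g.Γ f f x ^ 2 / 4 - 2 * c.RH f x +
    2 * c.σ x * g.Δ f x - g.Γ (g.Γ f f) f x / 2 - (c.σ x - g.Δ f x + g.Γ f f x / 2) ^ 2 / 3

omit [CompactSpace M] [BorelSpace M] [IsFiniteMeasure μ] in
theorem cont_pot (hf : g.Sm f) : Continuous (c.pot f) :=
  ((g.cont c.sm_σ).sub (g.cont (g.sm_Δ hf))).sub ((g.cont (g.sm_Γ hf hf)).div_const 2)

omit [CompactSpace M] [BorelSpace M] [IsFiniteMeasure μ] in
theorem cont_err (hf : g.Sm f) : Continuous (c.err f) := by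
  have c1 := g.cont c.sm_σ
  have c2 := c.cont_q
  have c3 := cont_G2 hf
  have c4 := g.cont (g.sm_Γ hf hf)
  have c5 := c.cont_RH f hf
  have c6 := g.cont (g.sm_Δ hf)
  have c7 := g.cont (g.sm_Γ (g.sm_Γ hf hf) hf)
  unfold err
  fun_prop

omit [CompactSpace M] [BorelSpace M] [IsFiniteMeasure μ] in
theorem pointwise (h0 : ∀ x, 0 ≤ c.σ x) (hf : g.Sm f) :
    (∀ x, 0 ≤ c.err f x) ∧
      WC g f fun x => |c.pot f x| / 3 + g.Γ f f x / 2 + Real.sqrt (c.err f x) := by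
  have key : ∀ x, 0 ≤ c.err f x ∧ ∀ l, g.Sm l → ∃ m : Model g.Sm g.Γ g.Δ x,
      (m.h l * m.h l).trace ≤ H2 g f
        (fun x => |c.pot f x| / 3 + g.Γ f f x / 2 + Real.sqrt (c.err f x)) l x := by
    intro x
    obtain ⟨m, h1, h2, h3⟩ := c.model x
    have hE := errM_symm m.r_symm (m.h_symm f hf) (m.ξ f) (c.σ x)
    have e : (errM m.r (m.h f) (m.ξ f) (c.σ x) * errM m.r (m.h f) (m.ξ f) (c.σ x)).trace =
        c.err f x := by
      rw [errM_sq h1, err, G2, m.Γ2 f hf, h2, h3 f hf, m.ΓΓ f f f hf hf hf, m.Γ_eq f f hf hf,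
        m.Δ_eq f hf]
      ring
    have e0 : 0 ≤ c.err f x := by
      rw [← e, bochner_trace_sq hE]
      positivity
    refine ⟨e0, fun l hl => ⟨m, ?_⟩⟩
    have a1 := quad_sq_le hE (m.ξ l) (m.ξ l)
    have a2 := errM_quad m.r (m.h f) (m.ξ f) (m.ξ l) (c.σ x)
    have a3 := g.Γ_sq_le hf hl x
    have a4 := g.Γ_nonneg hl x
    have a5 := g.Γ_nonneg hf x
    rw [e, ← m.Γ_eq l l hl hl] at a1
    rw [← m.Γ_eq l l hl hl, ← m.Γ_eq f f hf hf, ← m.Γ_eq f l hf hl, ← m.Δ_eq f hf] at a2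
    have a6 := (abs_le_of_sq_le_sq' (b := Real.sqrt (c.err f x) * g.Γ l l x) (a1.trans_eq (by
      rw [mul_pow, Real.sq_sqrt e0]; ring)) (by positivity)).1
    have a7 : -(|c.pot f x| * g.Γ l l x) ≤ c.pot f x * g.Γ l l x := by
      nlinarith [neg_abs_le (c.pot f x)]
    rw [H2, G2, m.Γ2 l hl, m.ΓΓ f l l hf hl hl, m.ΓΓ l l f hl hl hf,
      symm_dot (m.h_symm l hl) (m.ξ f)]
    rw [pot] at a7 ⊢
    nlinarith [mul_nonneg (h0 x) a4, mul_nonneg a5 a4]
  refine ⟨fun x => (key x).1, hf, ?_, fun x => ?_, fun l hl x => ?_, fun l hl x => ?_,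
    fun l hl x => ?_⟩
  · exact (((c.cont_pot hf).abs.div_const 3).add ((g.cont (g.sm_Γ hf hf)).div_const 2)).add
      (c.cont_err hf).sqrt
  · have := g.Γ_nonneg hf x
    positivity
  · obtain ⟨m, hm⟩ := (key x).2 l hl
    have := trace_ineq (P := 1) PosDef.one (m.h_symm l hl)
    simp only [Matrix.one_mul, Nat.cast_ofNat] at this
    rw [m.Δ_eq l hl]
    linarith
  · obtain ⟨m, hm⟩ := (key x).2 l hl
    have a1 := quad_sq_le (m.h_symm l hl) (m.ξ l) (m.ξ l)
    rw [← m.Γ_eq l l hl hl] at a1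
    rw [m.ΓΓ l l l hl hl hl]
    nlinarith [mul_le_mul_of_nonneg_right hm (mul_nonneg (g.Γ_nonneg hl x) (g.Γ_nonneg hl x))]
  · obtain ⟨m, hm⟩ := (key x).2 l hl
    have a1 := quad_sq_le (m.h_symm l hl) (m.ξ f) (m.ξ l)
    rw [← m.Γ_eq l l hl hl, ← m.Γ_eq f f hf hf] at a1
    rw [m.ΓΓ l l f hl hl hf]
    nlinarith [mul_le_mul_of_nonneg_right hm (mul_nonneg (g.Γ_nonneg hl x) (g.Γ_nonneg hf x))]

/-- The integral inequality for σ₂. -/
theorem star_int (h0 : ∀ x, 0 ≤ c.σ x) (hf : g.Sm f) :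
    ∫ x, ((6 * c.σ x ^ 2 - c.q x) / 2 + (g.Γ f f x ^ 2 / 48 + c.err f x / 2)) ∂μ ≤
      ∫ x, 5 / 12 * c.pot f x ^ 2 ∂μ := by
  have c1 := g.cont c.sm_σ
  have c2 := c.cont_q
  have c3 := cont_G2 hf
  have c4 := g.cont (g.sm_Γ hf hf)
  have c5 := c.cont_RH f hf
  have c6 := g.cont (g.sm_Δ hf)
  have c7 := g.cont (g.sm_Γ (g.sm_Γ hf hf) hf)
  have c8 := c.cont_err hf
  have c9 := c.cont_pot hf
  refine int_le_of (Z := fun x => -(1 / 2) * (g.Δ f x ^ 2 - G2 g f x) -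
    (c.RH f x - 2 * c.σ x * g.Δ f x) - (1 / 4) * (g.Γ f f x * g.Δ f x + g.Γ (g.Γ f f) f x))
    (by fun_prop) (by fun_prop) (by fun_prop) ?_ fun x => ?_
  · rw [integral_sub (intg (by fun_prop)) (intg (by fun_prop)),
      integral_sub (intg (by fun_prop)) (intg (by fun_prop)), integral_const_mul, integral_const_mul,
      int_G2 hf, integral_sub (intg c5) (intg (by fun_prop)), c.bianchi f hf,
      integral_add (intg (by fun_prop)) (intg c7), ibp' (g.sm_Γ hf hf) hf]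
    ring
  · simp only [err, pot]
    nlinarith [mul_nonneg (h0 x) (g.Γ_nonneg hf x),
      sq_nonneg (c.σ x - g.Δ f x - g.Γ f f x / 2 + g.Γ f f x / 2)]

theorem star (h0 : ∀ x, 0 ≤ c.σ x) (hf : g.Sm f) {S : ℝ} (hS : ∫ x, c.pot f x ^ 2 ∂μ ≤ S)
    (hB : 0 ≤ ∫ x, (6 * c.σ x ^ 2 - c.q x) / 2 ∂μ) :
    ∫ x, (6 * c.σ x ^ 2 - c.q x) / 2 ∂μ ≤ S ∧
      (∀ b > 0, ∫ x, c.σ x ∂μ ≤ b * μ.real univ + 3 * S / b) ∧
      ∃ w, WC g f w ∧ ∫ x, (w x ^ 2 + g.Γ f f x ^ 2) ∂μ ≤ 40 * S := by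
  have c1 := g.cont c.sm_σ
  have c2 := c.cont_q
  have c4 := g.cont (g.sm_Γ hf hf)
  have c6 := g.cont (g.sm_Δ hf)
  have c8 := c.cont_err hf
  have c9 := c.cont_pot hf
  obtain ⟨e0, hW⟩ := c.pointwise h0 hf
  have key := c.star_int h0 hf
  rw [integral_add (intg (by fun_prop)) (intg (by fun_prop)),
    integral_add (intg (by fun_prop)) (intg (by fun_prop)), integral_const_mul,
    integral_div 48, integral_div 2 (c.err f)] at key
  have p1 : 0 ≤ ∫ x, g.Γ f f x ^ 2 ∂μ := integral_nonneg fun x => sq_nonneg _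
  have p2 : 0 ≤ ∫ x, c.err f x ∂μ := integral_nonneg e0
  have p3 : 0 ≤ ∫ x, c.pot f x ^ 2 ∂μ := integral_nonneg fun x => sq_nonneg _
  refine ⟨by linarith, fun b hb => ?_, _, hW, ?_⟩
  · have h1 := int_le_of (μ := μ) c1 (G := fun x => b + (c.pot f x ^ 2 / 2 + g.Γ f f x ^ 2 / 8) / b)
      (by fun_prop) c6 (int_Δ hf) fun x => by
        have e : c.σ x = c.pot f x + g.Γ f f x / 2 + g.Δ f x := by rw [pot]; ring
        have : c.pot f x + g.Γ f f x / 2 - b ≤ (c.pot f x ^ 2 / 2 + g.Γ f f x ^ 2 / 8) / b := by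
          rw [le_div_iff₀ hb]
          nlinarith [sq_nonneg (c.pot f x - b), sq_nonneg (g.Γ f f x / 2 - b)]
        linarith
    rw [integral_add (intg (by fun_prop)) (intg (by fun_prop)), integral_const, integral_div,
      integral_add (intg (by fun_prop)) (intg (by fun_prop)), integral_div, integral_div,
      smul_eq_mul, mul_comm] at h1
    refine h1.trans (add_le_add le_rfl (div_le_div_of_nonneg_right (by linarith) hb.le))
  · have h1 := integral_mono (μ := μ) (intg ((hW.cont.pow 2).add (c4.pow 2)))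
      (g := fun x => c.pot f x ^ 2 / 3 + (7 / 4 * g.Γ f f x ^ 2 + 3 * c.err f x))
      (intg (by fun_prop)) fun x => by
        have a1 := Real.sq_sqrt (e0 x)
        have a2 := sq_abs (c.pot f x)
        simp only [Pi.add_apply, Pi.pow_apply]
        nlinarith [sq_nonneg (|c.pot f x| / 3 - g.Γ f f x / 2),
          sq_nonneg (|c.pot f x| / 3 - Real.sqrt (c.err f x)),
          sq_nonneg (g.Γ f f x / 2 - Real.sqrt (c.err f x))]
    rw [integral_add (intg (by fun_prop)) (intg (by fun_prop)),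
      integral_add (intg (by fun_prop)) (intg (by fun_prop)), integral_div, integral_const_mul,
      integral_const_mul] at h1
    refine le_trans h1 ?_
    linarith

end Curv

theorem alg_kato {b c H G : ℝ} (hb : b ^ 2 ≤ 3 * H) (hc : c ^ 2 ≤ 4 * H * G * G) :
    -(G * b) - c ≤ G ^ 2 / 2 + 8 * H := by
  have hH : 0 ≤ H := by nlinarith [sq_nonneg b]
  have h1 := (abs_le_of_sq_le_sq' (b := G ^ 2 / 4 + 4 * H)
    (hc.trans (by nlinarith [sq_nonneg (G ^ 2 / 4 - 4 * H)])) (by positivity)).1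
  nlinarith [sq_nonneg (G / 2 + b)]

theorem alg_err {a b c H G N w ε : ℝ} (hG : 0 ≤ G) (hN : 0 ≤ N) (ha : a ^ 2 ≤ N * G)
    (hb : b ^ 2 ≤ 3 * H) (hc : c ^ 2 ≤ 4 * H * G * N) (h0 : 0 < ε) (h1 : ε ≤ 1) :
    a * (b + G) + c / 2 + w * G ≤ ε * H + 3 * ε * G ^ 2 + 2 / ε ^ 3 * (w ^ 2 + N ^ 2) := by
  have hH : 0 ≤ H := by nlinarith [sq_nonneg b]
  obtain ⟨η, hη, rfl⟩ : ∃ η, 0 ≤ η ∧ H = η ^ 2 := ⟨_, Real.sqrt_nonneg H, (Real.sq_sqrt hH).symm⟩
  obtain ⟨s, hs, rfl⟩ : ∃ s, 0 ≤ s ∧ G = s ^ 2 := ⟨_, Real.sqrt_nonneg G, (Real.sq_sqrt hG).symm⟩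
  obtain ⟨u, hu, rfl⟩ : ∃ u, 0 ≤ u ∧ N = (ε * u) ^ 2 :=
    ⟨Real.sqrt N / ε, by positivity, by rw [mul_div_cancel₀ _ h0.ne', Real.sq_sqrt hN]⟩
  obtain ⟨ω, rfl⟩ : ∃ ω, w = ε * ω := ⟨w / ε, by rw [mul_div_cancel₀ _ h0.ne']⟩
  have a1 : |a| ≤ ε * u * s := abs_le_of_sq_le_sq (ha.trans_eq (by ring)) (by positivity)
  have a2 : |b| ≤ 2 * η := abs_le_of_sq_le_sq (hb.trans (by nlinarith)) (by positivity)
  have a3 : |c| ≤ 2 * η * s * (ε * u) := abs_le_of_sq_le_sq (hc.trans_eq (by ring)) (by positivity)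
  have a4 : a * b ≤ ε * u * s * (2 * η) :=
    (le_abs_self _).trans ((abs_mul a b).trans_le (mul_le_mul a1 a2 (abs_nonneg _) (by positivity)))
  have a5 : a * s ^ 2 ≤ ε * u * s * s ^ 2 :=
    mul_le_mul_of_nonneg_right ((le_abs_self _).trans a1) (sq_nonneg s)
  have a6 := (le_abs_self c).trans a3
  have e : 2 / ε ^ 3 * ((ε * ω) ^ 2 + ((ε * u) ^ 2) ^ 2) = 2 * ω ^ 2 / ε + ε * (2 * u ^ 4) := by
    field_simp
  have b1 : ε * (2 * ω ^ 2) ≤ 2 * ω ^ 2 / ε := by
    rw [le_div_iff₀ h0]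
    nlinarith [mul_nonneg (sq_nonneg ω) (show 0 ≤ 1 - ε * ε by nlinarith)]
  have b2 : 3 * u * s * η + u * s ^ 3 + ω * s ^ 2 ≤ η ^ 2 + 3 * s ^ 4 + 2 * ω ^ 2 + 2 * u ^ 4 := by
    nlinarith [sq_nonneg (η - 3 / 2 * u * s), sq_nonneg (s ^ 2 - 9 / 8 * u ^ 2),
      sq_nonneg (s ^ 2 - ω), sq_nonneg (s ^ 2 - u * s), sq_nonneg (s ^ 2 - u ^ 2), sq_nonneg ω,
      sq_nonneg (u ^ 2), sq_nonneg (s ^ 2)]
  have b3 := mul_le_mul_of_nonneg_left b2 h0.le
  rw [e]
  nlinarith

omit [CompactSpace M] [BorelSpace M] [IsFiniteMeasure μ] in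
theorem exp_facts (hl : g.Sm l) : g.Sm (fun x => Real.exp (l x)) ∧
    (∀ k, g.Sm k → ∀ x, g.Γ (fun x => Real.exp (l x)) k x = Real.exp (l x) * g.Γ l k x) ∧
    ∀ x, g.Δ (fun x => Real.exp (l x)) x = Real.exp (l x) * (g.Δ l x + g.Γ l l x) := by
  have h : ∀ x, ContDiffAt ℝ (⊤ : ℕ∞) Real.exp (l x) := fun x => Real.contDiff_exp.contDiffAt
  refine ⟨g.sm_comp hl h, fun k hk x => ?_, fun x => ?_⟩
  · rw [g.Γ_comp hl hk h, Real.deriv_exp]
  · rw [g.Δ_comp hl h, Real.deriv_exp, Real.deriv_exp]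
    ring

/-- The Bochner term controls the square of the Fisher information up to an error. -/
theorem WC.err (hW : WC g f w) (hl : g.Sm l) (hv : v = fun x => Real.exp (l x)) {δ : ℝ}
    (h0 : 0 < δ) (h1 : δ ≤ 1) (y : ℝ) :
    -∫ x, v x * G2 g l x ∂μ ≤
      -((1 - δ) * (2 * y * ∫ x, v x * g.Γ l l x ∂μ - y ^ 2 * ∫ x, v x ∂μ) / 3) +
        240000 / δ ^ 3 * ∫ x, v x * (w x ^ 2 + g.Γ f f x ^ 2) ∂μ := by
  obtain ⟨sv, eΓ, eΔ⟩ := exp_facts hl
  rw [← hv] at sv eΓ eΔ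
  have vp : ∀ x, 0 < v x := fun x => by rw [hv]; exact Real.exp_pos _
  have ev : ∀ x, Real.exp (l x) = v x := fun x => by rw [hv]
  simp only [ev] at eΓ eΔ
  have hf := hW.sm
  have sG := g.sm_Γ hl hl
  have sa := g.sm_Γ hf hl
  have c1 := g.cont sv
  have c2 := g.cont sG
  have c3 := cont_H2 hf hW.cont hl
  have c4 := cont_G2 hl
  have c5 := hW.cont
  have c6 := g.cont (g.sm_Γ hf hf)
  have c7 := g.cont (g.sm_Δ hl)
  have c8 := g.cont (g.sm_Δ sv)
  have c9 := g.cont sa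
  have c10 := g.cont (g.sm_Γ (g.sm_mul sG sv) hl)
  have c11 := g.cont (g.sm_Γ sa sv)
  have i1 : ∫ x, v x * g.Γ l l x ^ 2 / 2 ∂μ ≤ ∫ x, 8 * (v x * H2 g f w l x) ∂μ := by
    refine int_le_of (Z := fun x => g.Γ l l x * v x * g.Δ l x +
      g.Γ (fun y => g.Γ l l y * v y) l x) (by fun_prop) (by fun_prop) (by fun_prop) ?_ fun x => ?_
    · rw [integral_add (intg (by fun_prop)) (intg c10), ibp' (g.sm_mul sG sv) hl, neg_add_cancel]
    · rw [g.Γ_mul sG sv hl, eΓ l hl]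
      nlinarith [mul_le_mul_of_nonneg_left (alg_kato (hW.a l hl x) (hW.b l hl x)) (vp x).le]
  have i2 : ∫ x, -(v x * G2 g l x) ∂μ ≤ ∫ x, (-((1 - δ / 49) * (v x * H2 g f w l x)) +
      (3 * (δ / 49) * (v x * g.Γ l l x ^ 2) +
      2 / (δ / 49) ^ 3 * (v x * (w x ^ 2 + g.Γ f f x ^ 2)))) ∂μ := by
    refine int_le_of (Z := fun x => -(g.Γ f l x * g.Δ v x + g.Γ (g.Γ f l) v x))
      (by fun_prop) (by fun_prop) (by fun_prop) ?_ fun x => ?_
    · rw [integral_neg, integral_add (intg (by fun_prop)) (intg c11), ibp' sa sv, neg_add_cancel,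
        neg_zero]
    · have := alg_err (w := w x) (g.Γ_nonneg hl x) (g.Γ_nonneg hf x) (g.Γ_sq_le hf hl x)
        (hW.a l hl x) (hW.c l hl x) (ε := δ / 49) (by positivity) (by linarith)
      have e : G2 g l x = H2 g f w l x + (g.Γ (g.Γ f l) l x - g.Γ (g.Γ l l) f x / 2) -
        w x * g.Γ l l x := by rw [H2]; ring
      rw [g.Γ_symm sa sv, eΓ _ sa, eΔ, g.Γ_symm hl sa, e]
      nlinarith [mul_le_mul_of_nonneg_left this (vp x).le]
  have i3 : ∫ x, (2 * y * (v x * g.Γ l l x) - y ^ 2 * v x) ∂μ ≤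
      ∫ x, 3 * (v x * H2 g f w l x) ∂μ := by
    refine int_le_of (Z := fun x => 2 * y * g.Δ v x) (by fun_prop) (by fun_prop) (by fun_prop) ?_
      fun x => ?_
    · rw [integral_const_mul, int_Δ sv, mul_zero]
    · rw [eΔ]
      nlinarith [mul_le_mul_of_nonneg_left (hW.a l hl x) (vp x).le,
        mul_nonneg (vp x).le (sq_nonneg (g.Δ l x + y))]
  rw [integral_div, integral_const_mul] at i1
  rw [integral_neg, integral_add (intg (by fun_prop)) (intg (by fun_prop)),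
    integral_add (intg (by fun_prop)) (intg (by fun_prop)), integral_neg, integral_const_mul,
    integral_const_mul, integral_const_mul] at i2
  rw [integral_sub (intg (by fun_prop)) (intg (by fun_prop)), integral_const_mul,
    integral_const_mul, integral_const_mul] at i3
  have p1 : 0 ≤ ∫ x, v x * (w x ^ 2 + g.Γ f f x ^ 2) ∂μ :=
    integral_nonneg fun x => mul_nonneg (vp x).le (by positivity)
  have p2 : 2 / (δ / 49) ^ 3 ≤ 240000 / δ ^ 3 := by
    rw [div_pow, div_div_eq_mul_div]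
    exact div_le_div_of_nonneg_right (by norm_num) (by positivity)
  nlinarith [mul_le_mul_of_nonneg_right p2 p1, mul_le_mul_of_nonneg_left i1 h0.le,
    mul_le_mul_of_nonneg_left i3 (sub_nonneg.2 h1)]

end Pool.Agent.MP_9bd639_gt.H87

end

-- part MP_9bd639_gt.H87.Ground
section

/-! A positive function U whose potential (-2 Δ U + σ U) / U has small L² norm. -/

open MeasureTheory Filter Topology Set
open scoped RealInnerProductSpace ContDiff

namespace Pool.Agent.MP_9bd639_gt.H87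

open Pool.Agent.MP_3fc7f4_gt

variable {M : Type} [MetricSpace M] [CompactSpace M] [MeasurableSpace M] [BorelSpace M]
  {μ : Measure M} [IsFiniteMeasure μ] [μ.IsOpenPosMeasure] {lam : ℝ} {g : Geo M μ 3 lam}
  {f v φ W σ : M → ℝ}

omit [μ.IsOpenPosMeasure] in
theorem mem2 {F : M → ℝ} (hF : Continuous F) : MemLp F 2 μ :=
  hF.memLp_of_hasCompactSupport (HasCompactSupport.of_compactSpace F)

omit [MeasurableSpace M] [BorelSpace M] in
theorem exists_bd {F : M → ℝ} (hF : Continuous F) : ∃ C, 0 < C ∧ ∀ x, |F x| ≤ C := by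
  obtain ⟨C, hC⟩ := isCompact_univ.exists_bound_of_continuousOn hF.continuousOn
  exact ⟨|C| + 1, by positivity, fun x =>
    (hC x (mem_univ x)).trans ((le_abs_self C).trans (by linarith))⟩

theorem cmp (h : Heat g) (hφ : g.Sm φ) {a t : ℝ} (ha : ∀ x, g.Δ φ x ≤ a * φ x) (ht : 0 < t)
    (x : M) : ∫ y, h.p t x y * φ y ∂μ ≤ Real.exp (a * t) * φ x := by
  have hc := HasCompactSupport.of_compactSpace φ
  have hA := (mem2 (μ := μ) (g.cont hφ)).coeFn_toLp
  have hB := (mem2 (μ := μ) (g.cont (g.sm_Δ hφ))).coeFn_toLp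
  set A := (mem2 (μ := μ) (g.cont hφ)).toLp φ
  set B := (mem2 (μ := μ) (g.cont (g.sm_Δ hφ))).toLp (g.Δ φ)
  have hd : ∀ s, 0 < s → HasDerivAt (fun s => Real.exp (-(a * s)) * h.U 0 s A x)
      (-(Real.exp (-(a * s)) * h.U 0 s (a • A - B) x)) s := fun s hs => by
    have d1 : HasDerivAt (fun s => Real.exp (-(a * s))) (Real.exp (-(a * s)) * -(a * 1)) s :=
      ((hasDerivAt_id s).const_mul a).neg.exp
    refine (d1.mul (h.U_deriv 0 hs A x)).congr_deriv ?_
    rw [zero_add, h.U_one_test hs hφ hc hA hB, h.U_sub, h.U_smul]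
    ring
  have hanti : AntitoneOn (fun s => Real.exp (-(a * s)) * h.U 0 s A x) (Ioi 0) := by
    refine antitoneOn_of_deriv_nonpos (convex_Ioi 0)
      (fun s hs => (hd s hs).continuousAt.continuousWithinAt)
      (fun s hs => (hd s (interior_subset hs)).differentiableAt.differentiableWithinAt)
      fun s hs => ?_
    have hs' : 0 < s := interior_subset hs
    rw [(hd s hs').deriv, neg_nonpos]
    refine mul_nonneg (Real.exp_pos _).le (h.U_nonneg hs' ?_ x)
    filter_upwards [Lp.coeFn_sub (a • A) B, Lp.coeFn_smul a A, hA, hB] with y h1 h2 h3 h4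
    rw [h1, Pi.sub_apply, h2, Pi.smul_apply, h3, h4, smul_eq_mul, sub_nonneg]
    exact ha y
  obtain ⟨K, -, hK⟩ := exists_bd (g.cont (g.sm_Δ hφ))
  have l1 : Tendsto (fun s => h.U 0 s A x) (𝓝[>] 0) (𝓝 (φ x)) := by
    rw [tendsto_iff_norm_sub_tendsto_zero]
    refine squeeze_zero' (Eventually.of_forall fun s => norm_nonneg _)
      (eventually_mem_nhdsWithin.mono fun s hs => h.abs_U_sub_le hs hφ hc hA hK x) ?_
    have : Tendsto (fun s : ℝ => K * s) (𝓝 0) (𝓝 (K * 0)) :=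
      (continuous_const.mul continuous_id).tendsto 0
    rw [mul_zero] at this
    exact this.mono_left nhdsWithin_le_nhds
  have l2 : Tendsto (fun s : ℝ => Real.exp (-(a * s))) (𝓝[>] 0) (𝓝 (Real.exp (-(a * 0)))) :=
    ((by fun_prop : Continuous fun s : ℝ => Real.exp (-(a * s))).tendsto 0).mono_left
      nhdsWithin_le_nhds
  have l3 : Real.exp (-(a * t)) * h.U 0 t A x ≤ Real.exp (-(a * 0)) * φ x :=
    ge_of_tendsto (l2.mul l1) (by
      filter_upwards [Ioo_mem_nhdsGT ht] with s hs using hanti hs.1 ht hs.2.le)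
  rw [mul_zero, neg_zero, Real.exp_zero, one_mul, Real.exp_neg,
    inv_mul_le_iff₀ (Real.exp_pos _), h.U_eq_integral ht hA] at l3
  exact l3

theorem kernel_bd (h : Heat g) : ∃ κ K : ℝ, 0 < κ ∧ ∀ x y, κ ≤ h.p 3 x y ∧ h.p 3 x y ≤ K := by
  obtain ⟨K, hK⟩ := isCompact_univ.exists_bound_of_continuousOn
    (h.joint_κ_continuous 0 (t := 3 / 2) (by norm_num)).continuousOn
  set c : ℝ := ((3 : ℕ) / 2 * (Real.log (2 / 1) - 1 + 1 / 2) +
    (3 : ℕ) * lam * 2 * Real.exp (2 * lam * 2)) +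
    Real.exp (2 * lam * 2) * Metric.diam (univ : Set M) ^ 2 / (4 * 2) +
    (3 : ℕ) / 2 * Real.exp (2 * lam * 1) + Real.log (μ.real univ) with hc
  have hη : 0 < Real.exp (-c) / 2 := by positivity
  refine ⟨Real.exp (-c) / 2, K * K, hη, fun x y => ⟨?_, ?_⟩⟩
  · have h1 := h.harnack hη one_pos (τ := 2) (by norm_num) x y
    have hi : Integrable (gw 1 x) μ := intg (gibbs_gw_cont 1 x)
    have h2 := h.gibbs hη one_pos x hi
    have h3 : ∫ z, gw 1 x z ∂μ ≤ μ.real univ := by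
      have := integral_mono hi (integrable_const (1 : ℝ)) fun z =>
        Real.exp_le_one_iff.2 (neg_nonpos.2 (by positivity))
      simpa using this
    have h4 : 0 < ∫ z, gw 1 x z ∂μ :=
      (gibbs_gw_cont 1 x).integral_pos_of_hasCompactSupport_nonneg_nonzero
        (HasCompactSupport.of_compactSpace _) (fun z => (gibbs_gw_pos 1 x z).le)
        (gibbs_gw_pos 1 x x).ne'
    have h5 := Real.log_le_log h4 h3
    have h6 : dist x y ^ 2 ≤ Metric.diam (univ : Set M) ^ 2 := pow_le_pow_left₀ dist_nonneg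
      (Metric.dist_le_diam_of_mem isCompact_univ.isBounded (mem_univ x) (mem_univ y)) 2
    have h7 := mul_le_mul_of_nonneg_left h6 (Real.exp_pos (2 * lam * 2)).le
    have hp := h.p_nonneg (t := 2 + 1) (by norm_num) x y
    have h8 : -c ≤ Real.log ((1 + h.p (2 + 1) x y / (Real.exp (-c) / 2)) * (Real.exp (-c) / 2)) := by
      rw [Real.log_mul (by positivity) hη.ne']
      linarith
    rw [Real.le_log_iff_exp_le (by positivity), add_mul, div_mul_cancel₀ _ hη.ne',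
      show (2 : ℝ) + 1 = 3 by norm_num] at h8
    linarith
  · refine (real_inner_le_norm _ _).trans ?_
    exact mul_le_mul (hK y (mem_univ y)) (hK x (mem_univ x)) (norm_nonneg _)
      ((norm_nonneg _).trans (hK y (mem_univ y)))

theorem exists_res (g : Geo M μ 3 lam) {C : ℝ} (hC : 0 < C) {e : M → ℝ} (he : g.Sm e) :
    ∃ v, g.Sm v ∧ ∀ x, C * v x - 2 * g.Δ v x = e x := by
  have cs := fun F : M → ℝ => HasCompactSupport.of_compactSpace F
  obtain ⟨R, hs, -, -, hR⟩ := exists_resolvent (kernel_ι g) ((2 / C) • kernel_A g)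
    (fun v w => by
      simp only [LinearMap.smul_apply, real_inner_smul_left, real_inner_smul_right, kernel_symm])
    (fun v => by
      simp only [LinearMap.smul_apply, real_inner_smul_left]
      exact mul_nonpos_of_nonneg_of_nonpos (by positivity) (kernel_neg g v))
  set u := R (kernel_ι g ⟨e, he, cs e⟩) with hu
  have iu : ∀ ψ : M → ℝ, Continuous ψ → Integrable (fun x => u x * ψ x) μ := fun ψ hψ =>
    (Lp.memLp u).integrable_mul (mem2 hψ)
  have weak : ∀ ψ, g.Sm ψ → ∫ x, u x * g.Δ ψ x ∂μ =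
      C / 2 * (∫ x, u x * ψ x ∂μ - ∫ x, e x * ψ x ∂μ) := fun ψ hψ => by
    have e1 := hs (kernel_ι g ⟨e, he, cs e⟩)
      (kernel_ι g ⟨ψ, hψ, cs ψ⟩ - ((2 / C) • kernel_A g) ⟨ψ, hψ, cs ψ⟩)
    rw [hR, inner_sub_right, LinearMap.smul_apply, real_inner_smul_right, ← hu,
      inner_eq_integral (ae_eq_refl _) (kernel_ι_ae g _),
      inner_eq_integral (ae_eq_refl _) (kernel_A_ae g _),
      inner_eq_integral (kernel_ι_ae g _) (kernel_ι_ae g _)] at e1
    simp only at e1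
    rw [← e1]
    field_simp
    ring
  let b : ℕ → M → ℝ := fun k => Nat.rec (fun _ => 0)
    (fun k b x => g.Δ b x + (C / 2) ^ (k + 1) * e x) k
  have sb : ∀ k, g.Sm (b k) := fun k => by
    induction k with
    | zero => exact g.sm_const 0
    | succ k ih => exact g.sm_add (g.sm_Δ ih) (g.sm_smul _ he)
  obtain ⟨f, hf, hfu⟩ := g.reg (fun k x => (C / 2) ^ k * u x - b k x)
    (fun k => ((Lp.memLp u).const_mul _).sub (mem2 (g.cont (sb k)))) fun k ψ hψ _ => by
      have c1 := g.cont hψ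
      have c2 := g.cont (g.sm_Δ hψ)
      have c3 := g.cont (sb k)
      have c4 := g.cont (g.sm_Δ (sb k))
      have c5 := g.cont he
      have e1 : b (k + 1) = fun x => g.Δ (b k) x + (C / 2) ^ (k + 1) * e x := rfl
      simp only [e1, sub_mul, add_mul, mul_assoc]
      rw [integral_sub ((iu _ c2).const_mul _) (intg (by fun_prop)),
        integral_sub ((iu _ c1).const_mul _) (intg (by fun_prop)),
        integral_add (intg (by fun_prop)) (intg (by fun_prop)), integral_const_mul,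
        integral_const_mul, integral_const_mul, weak ψ hψ, ibp_swap (sb k) hψ]
      simp only [mul_comm (ψ _)]
      ring
  have hfu' : f =ᵐ[μ] u := hfu.trans (Eventually.of_forall fun x => by simp [b])
  refine ⟨fun x => C⁻¹ * f x, g.sm_smul _ hf, fun x => ?_⟩
  have := kernel_zero g (w := fun x => g.Δ f x - C / 2 * (f x - e x))
    (g.sm_sub (g.sm_Δ hf) (g.sm_smul _ (g.sm_sub hf he))) (fun ψ hψ _ => by
      have c1 := g.cont hψ
      have c2 := g.cont (g.sm_Δ hf)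
      have c3 := g.cont hf
      have c5 := g.cont he
      have e1 : ∫ x, f x * g.Δ ψ x ∂μ = ∫ x, u x * g.Δ ψ x ∂μ :=
        integral_congr_ae (hfu'.mono fun x hx => by simp only [hx])
      have e2 : ∫ x, f x * ψ x ∂μ = ∫ x, u x * ψ x ∂μ :=
        integral_congr_ae (hfu'.mono fun x hx => by simp only [hx])
      have e3 : (fun x => ψ x * (g.Δ f x - C / 2 * (f x - e x))) =
          fun x => ψ x * g.Δ f x - C / 2 * (f x * ψ x - e x * ψ x) := funext fun x => by ring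
      rw [e3, integral_sub (intg (by fun_prop)) (intg (by fun_prop)), integral_const_mul,
        integral_sub (intg (by fun_prop)) (intg (by fun_prop)), ibp_swap hψ hf, e1, e2, weak ψ hψ,
        sub_self]) x
  rw [g.Δ_smul _ hf]
  field_simp
  linarith

theorem res_nonneg (h : Heat g) (hv : g.Sm v) {C : ℝ} (hC : 0 < C)
    (h0 : ∀ x, 0 ≤ C * v x - 2 * g.Δ v x) (x : M) : 0 ≤ v x := by
  obtain ⟨b, hb, hb'⟩ := exists_bd (g.cont hv)
  have key : ∀ t, 0 < t → -b ≤ Real.exp (C / 2 * t) * v x := fun t ht => by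
    refine le_trans ?_ (cmp h hv (a := C / 2) (fun y => by linarith [h0 y]) ht x)
    have c1 := g.cont (h.sm_p ht x)
    have c2 := g.cont hv
    have := integral_mono (μ := μ) (f := fun y => h.p t x y * -b) (intg (by fun_prop))
      (g := fun y => h.p t x y * v y) (intg (by fun_prop)) fun y =>
      mul_le_mul_of_nonneg_left (abs_le.1 (hb' y)).1 (h.p_nonneg ht x y)
    rwa [integral_mul_const, h.integral_p ht, one_mul] at this
  by_contra hx
  push Not at hx
  have h1 := key (2 / C * (b / -v x)) (by have := neg_pos.2 hx; positivity)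
  have h2 := Real.add_one_le_exp (C / 2 * (2 / C * (b / -v x)))
  have e : C / 2 * (2 / C * (b / -v x)) * v x = -b := by
    have := hx.ne
    field_simp
  linarith [mul_le_mul_of_nonpos_right h2 hx.le]

variable (g) in
/-- The quadratic form of -2 Δ + V. -/
noncomputable def Qf (V φ : M → ℝ) : ℝ := ∫ x, (2 * g.Γ φ φ x + V x * φ x ^ 2) ∂μ

omit [μ.IsOpenPosMeasure] in
theorem ground_ineq (hv : g.Sm v) (h0 : ∀ x, 0 < v x) (hφ : g.Sm φ) (hσ : Continuous σ) :
    ∫ x, (σ x - 2 * g.Δ v x / v x) * φ x ^ 2 ∂μ ≤ Qf g σ φ := by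
  have hi : ∀ x, ContDiffAt ℝ ∞ (fun r : ℝ => r⁻¹) (v x) := fun x =>
    contDiffAt_inv ℝ (h0 x).ne'
  have s1 := g.sm_comp hv hi
  have s2 := g.sm_mul (g.sm_mul hφ hφ) s1
  have c1 := g.cont s1
  have c2 := g.cont hφ
  have c3 := g.cont (g.sm_Δ hv)
  have c4 := g.cont (g.sm_Γ hφ hφ)
  have c5 := g.cont (g.sm_Γ s2 hv)
  simp only [div_eq_mul_inv]
  refine int_le_of (Z := fun x => -2 * (φ x * φ x * (v x)⁻¹ * g.Δ v x +
    g.Γ (fun y => φ y * φ y * (v y)⁻¹) v x)) (by fun_prop) (by fun_prop) (by fun_prop) ?_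
    fun x => ?_
  · rw [integral_const_mul, integral_add (intg (by fun_prop)) (intg c5), ibp' s2 hv,
      neg_add_cancel, mul_zero]
  · have := g.Γ_nonneg (g.sm_add (g.sm_smul 1 hφ) (g.sm_smul (-(φ x * (v x)⁻¹)) hv)) x
    rw [g.Γ_comb _ _ hφ hv] at this
    rw [g.Γ_mul (g.sm_mul hφ hφ) s1 hv, g.Γ_mul hφ hφ hv, g.Γ_comp hv hv hi, deriv_inv,
      ← inv_pow]
    linarith

theorem iterate (h : Heat g) (hW : g.Sm W) (hW0 : ∀ x, 0 ≤ W x) {C ρ : ℝ} (hC : 0 < C)
    (hρ0 : 0 ≤ ρ) (hρ1 : ρ < 1)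
    (hρ : ∀ φ, g.Sm φ → ∫ x, W x * φ x ^ 2 ∂μ ≤ ρ * Qf g (fun _ => C) φ) {ε : ℝ} (hε : 0 < ε) :
    ∃ u d, g.Sm u ∧ g.Sm d ∧ (∀ x, 0 ≤ d x ∧ d x ≤ u x ∧ C⁻¹ ≤ u x ∧
      C * u x - 2 * g.Δ u x = 1 + W x * (u x - d x)) ∧ ∫ x, d x ^ 2 ∂μ ≤ ε := by
  obtain ⟨d₀, s₀, e₀⟩ := exists_res g hC (g.sm_const 1)
  have p₀ : ∀ x, C⁻¹ ≤ d₀ x := fun x => sub_nonneg.1
    (res_nonneg h (g.sm_sub s₀ (g.sm_const C⁻¹)) hC (fun y => by
      rw [g.Δ_sub s₀ (g.sm_const _), g.Δ_const, mul_sub, mul_inv_cancel₀ hC.ne']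
      linarith [e₀ y]) x)
  have low : ∀ φ, g.Sm φ → C * ∫ x, φ x ^ 2 ∂μ ≤ Qf g (fun _ => C) φ := fun φ hφ => by
    have c1 := g.cont hφ
    have c2 := g.cont (g.sm_Γ hφ hφ)
    rw [← integral_const_mul]
    exact integral_mono (intg (by fun_prop)) (intg (by fun_prop)) fun x => by
      linarith [g.Γ_nonneg hφ x]
  have key : ∀ n : ℕ, ∃ u d, g.Sm u ∧ g.Sm d ∧ (∀ x, 0 ≤ d x ∧ d x ≤ u x ∧ C⁻¹ ≤ u x ∧
      C * u x - 2 * g.Δ u x = 1 + W x * (u x - d x)) ∧
      Qf g (fun _ => C) d ≤ ρ ^ n * Qf g (fun _ => C) d₀ := fun n => by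
    induction n with
    | zero => exact ⟨d₀, d₀, s₀, s₀, fun x => ⟨(inv_pos.2 hC).le.trans (p₀ x), le_rfl, p₀ x,
        by rw [e₀, sub_self, mul_zero, add_zero]⟩, by simp⟩
    | succ n ih =>
      obtain ⟨u, d, su, sd, hp, hE⟩ := ih
      obtain ⟨d', sd', e'⟩ := exists_res g hC (g.sm_mul hW sd)
      have p' := res_nonneg h sd' hC fun y => by rw [e']; exact mul_nonneg (hW0 y) (hp y).1
      refine ⟨fun x => u x + d' x, d', g.sm_add su sd', sd', fun x => ⟨p' x,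
        by linarith [(hp x).1, (hp x).2.1], by linarith [(hp x).2.2.1, p' x], ?_⟩, ?_⟩
      · rw [g.Δ_add su sd']
        linarith [(hp x).2.2.2, e' x]
      · have c1 := g.cont sd
        have c2 := g.cont sd'
        have c3 := g.cont hW
        have c4 := g.cont (g.sm_Γ sd' sd')
        have c5 := g.cont (g.sm_Δ sd')
        have i1 : Qf g (fun _ => C) d' ≤ ∫ x, (W x * d x ^ 2 / 2 + W x * d' x ^ 2 / 2) ∂μ := by
          refine int_le_of (Z := fun x => 2 * (d' x * g.Δ d' x + g.Γ d' d' x)) (by fun_prop)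
            (by fun_prop) (by fun_prop) ?_ fun x => ?_
          · rw [integral_const_mul, integral_add (intg (by fun_prop)) (intg c4), ibp' sd' sd',
              neg_add_cancel, mul_zero]
          · have e : C * d' x ^ 2 = d' x * (W x * d x) + 2 * (d' x * g.Δ d' x) := by
              rw [← e' x]; ring
            linarith [mul_nonneg (hW0 x) (sq_nonneg (d x - d' x))]
        rw [integral_add (intg (by fun_prop)) (intg (by fun_prop)), integral_div, integral_div] at i1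
        have q' : 0 ≤ Qf g (fun _ => C) d' :=
          (mul_nonneg hC.le (integral_nonneg fun x => sq_nonneg _)).trans (low d' sd')
        have := mul_le_mul_of_nonneg_left hE hρ0
        rw [pow_succ']
        linarith [hρ d sd, hρ d' sd', mul_le_mul_of_nonneg_right hρ1.le q']
  have lim : Tendsto (fun n : ℕ => ρ ^ n * Qf g (fun _ => C) d₀) atTop (𝓝 (0 * _)) :=
    (tendsto_pow_atTop_nhds_zero_of_lt_one hρ0 hρ1).mul_const _
  rw [zero_mul] at lim
  obtain ⟨n, hn⟩ := (lim.eventually (gt_mem_nhds (mul_pos hC hε))).exists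
  obtain ⟨u, d, su, sd, hp, hE⟩ := key n
  exact ⟨u, d, su, sd, hp, le_of_mul_le_mul_left ((low d sd).trans (hE.trans hn.le)) hC⟩

theorem harn (h : Heat g) [Nonempty M] {C : ℝ} (hC : 0 < C) : ∃ α β : ℝ, 0 < α ∧ 0 < β ∧
    ∀ u, g.Sm u → (∀ x, 0 ≤ u x ∧ 2 * g.Δ u x ≤ C * u x ∧ -(C * u x) - 1 ≤ 2 * g.Δ u x) →
      ∀ x y, u x ≤ α * u y + β := by
  obtain ⟨κ, K, hκ, hp⟩ := kernel_bd h
  obtain ⟨x₀⟩ := ‹Nonempty M›
  have hK : 0 < K := hκ.trans_le ((hp x₀ x₀).1.trans (hp x₀ x₀).2)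
  have hE := Real.exp_pos (C / 2 * 3)
  refine ⟨Real.exp (C / 2 * 3) * K * Real.exp (C / 2 * 3) / κ, Real.exp (C / 2 * 3) / C,
    by positivity, by positivity, fun u su hu x y => ?_⟩
  have c1 := g.cont su
  have c2 := fun z => g.cont (h.sm_p (t := 3) (by norm_num) z)
  have c3 := c2 x
  have c4 := c2 y
  have h1 := cmp h su (a := C / 2) (fun z => by linarith [(hu z).2.1]) (t := 3) (by norm_num) y
  have h2 := integral_mono (μ := μ) (f := fun z => κ * u z) (intg (by fun_prop))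
    (g := fun z => h.p 3 y z * u z) (intg (by fun_prop)) fun z =>
    mul_le_mul_of_nonneg_right (hp y z).1 (hu z).1
  have h3 := cmp h (g.sm_neg (g.sm_add su (g.sm_const C⁻¹))) (a := -(C / 2)) (fun z => by
    rw [g.Δ_neg (g.sm_add su (g.sm_const _)), g.Δ_add su (g.sm_const _), g.Δ_const]
    have e : C * C⁻¹ = 1 := mul_inv_cancel₀ hC.ne'
    linarith [(hu z).2.2]) (t := 3) (by norm_num) x
  have h4 := integral_mono (μ := μ) (f := fun z => -(K * u z) - h.p 3 x z * C⁻¹)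
    (intg (by fun_prop)) (g := fun z => h.p 3 x z * -(u z + C⁻¹)) (intg (by fun_prop)) fun z => by
    linarith [mul_le_mul_of_nonneg_right (hp x z).2 (hu z).1]
  rw [integral_sub (intg (by fun_prop)) (intg (by fun_prop)), integral_neg, integral_const_mul,
    integral_mul_const, h.integral_p (by norm_num), one_mul] at h4
  rw [integral_const_mul] at h2
  rw [neg_mul, Real.exp_neg] at h3
  have h5 : ∫ z, u z ∂μ ≤ Real.exp (C / 2 * 3) * u y / κ := by
    rw [le_div_iff₀ hκ]; linarith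
  have h6 := (le_inv_mul_iff₀ hE).1 (h4.trans h3)
  have h7 := mul_le_mul_of_nonneg_left h5 (mul_pos hE hK).le
  have h8 : 0 < C⁻¹ := inv_pos.2 hC
  have e : Real.exp (C / 2 * 3) * K * Real.exp (C / 2 * 3) / κ * u y + Real.exp (C / 2 * 3) / C =
      Real.exp (C / 2 * 3) * K * (Real.exp (C / 2 * 3) * u y / κ) +
        Real.exp (C / 2 * 3) * C⁻¹ := by ring
  rw [e]
  linarith

omit [CompactSpace M] [BorelSpace M] [IsFiniteMeasure μ] [μ.IsOpenPosMeasure] in
theorem Qf_nonneg (h0 : ∀ x, 0 ≤ σ x) (hφ : g.Sm φ) : 0 ≤ Qf g σ φ :=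
  integral_nonneg fun x => by
    have := g.Γ_nonneg hφ x
    have := h0 x
    positivity

omit [μ.IsOpenPosMeasure] in
theorem Qf_sub (hσ : Continuous σ) (hW : Continuous W) (hφ : g.Sm φ) :
    Qf g (fun x => σ x - W x) φ = Qf g σ φ - ∫ x, W x * φ x ^ 2 ∂μ := by
  have c1 := g.cont hφ
  have c2 := g.cont (g.sm_Γ hφ hφ)
  rw [Qf, Qf, ← integral_sub (intg (by fun_prop)) (intg (by fun_prop))]
  exact integral_congr_ae (Eventually.of_forall fun x => by ring)

/-- For a positive weight s with bottom of the weighted spectrum in [0, 1], there is a large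
positive u whose potential is θ s up to a small error. -/
theorem ground_aux (h : Heat g) [Nonempty M] (hσ : g.Sm σ) (h0 : ∀ x, 0 ≤ σ x) {s : M → ℝ}
    (hs : g.Sm s) {η : ℝ} (hη : 0 < η) (hs0 : ∀ x, η ≤ s x) (hφ : g.Sm φ)
    (hlt : Qf g σ φ < ∫ x, s x * φ x ^ 2 ∂μ) {γ : ℝ} (hγ : 0 < γ) :
    ∃ (u e : M → ℝ) (θ : ℝ), g.Sm u ∧ Continuous e ∧ |θ| ≤ 1 ∧ ∫ x, e x ^ 2 ∂μ ≤ γ ∧
      ∀ x, η⁻¹ ≤ u x ∧ σ x - 2 * g.Δ u x / u x = θ * s x + (u x)⁻¹ - e x := by
  have cσ := g.cont hσ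
  have cs := g.cont hs
  have sp : ∀ ψ : M → ℝ, 0 ≤ ∫ x, s x * ψ x ^ 2 ∂μ := fun ψ =>
    integral_nonneg fun x => mul_nonneg (hη.le.trans (hs0 x)) (sq_nonneg _)
  set T : Set ℝ := {θ | ∀ ψ, g.Sm ψ → θ * ∫ x, s x * ψ x ^ 2 ∂μ ≤ Qf g σ ψ} with hT
  have T0 : (0 : ℝ) ∈ T := fun ψ hψ => by rw [zero_mul]; exact Qf_nonneg h0 hψ
  have T1 : ∀ θ ∈ T, θ ≤ 1 := fun θ hθ => by
    have a1 := (Qf_nonneg h0 hφ).trans_lt hlt
    exact le_of_mul_le_mul_right (by linarith [hθ φ hφ]) a1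
  have Tb : BddAbove T := ⟨1, T1⟩
  have Ts : sSup T ∈ T := fun ψ hψ => by
    rcases (sp ψ).eq_or_lt with e | e
    · rw [← e, mul_zero]; exact Qf_nonneg h0 hψ
    · rw [← le_div_iff₀ e]
      exact csSup_le ⟨0, T0⟩ fun θ hθ => (le_div_iff₀ e).2 (hθ ψ hψ)
  have t0 : 0 ≤ sSup T := le_csSup Tb T0
  have t1 := T1 _ Ts
  obtain ⟨b₁, hb₁, hb₁'⟩ := exists_bd cσ
  obtain ⟨b₂, hb₂, hb₂'⟩ := exists_bd cs
  obtain ⟨C, hCd⟩ : ∃ C, C = b₁ + b₂ := ⟨_, rfl⟩
  have hC : 0 < C := by linarith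
  obtain ⟨α, β, hα, hβ, hH⟩ := harn h hC
  obtain ⟨L, hLd⟩ : ∃ L, L = α * η⁻¹ + β := ⟨_, rfl⟩
  have hL : 0 < L := by rw [hLd]; positivity
  obtain ⟨ε, hε, hε1, hε2⟩ : ∃ ε : ℝ, 0 < ε ∧ ε ≤ 1 ∧ ε ≤ 1 / (8 * C * L) :=
    ⟨min 1 _, lt_min one_pos (by positivity), min_le_left _ _, min_le_right _ _⟩
  have hn : sSup T + ε ∉ T := fun hh => by linarith [le_csSup Tb hh]
  simp only [hT, mem_ofPred_eq, not_forall, not_le] at hn
  obtain ⟨ψ, hψ, hψ'⟩ := hn
  rw [← hT] at hψ'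
  obtain ⟨θ, hθ⟩ : ∃ θ, θ = sSup T - ε := ⟨_, rfl⟩
  have hθ1 : |θ| ≤ 1 := abs_le.2 ⟨by linarith, by linarith⟩
  have hV : ∀ x, |σ x - θ * s x| ≤ C := fun x => by
    have := abs_sub (σ x) (θ * s x)
    rw [abs_mul] at this
    linarith [hb₁' x, hb₂' x, mul_le_mul_of_nonneg_right hθ1 (abs_nonneg (s x))]
  have sV := g.sm_sub hσ (g.sm_smul θ hs)
  have sW := g.sm_sub (g.sm_const C) sV
  have cV := g.cont sV
  have cψ := g.cont hψ
  have W0 : ∀ x, 0 ≤ C - (σ x - θ * s x) := fun x => by linarith [(abs_le.1 (hV x)).2]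
  have W1 : ∀ x, C - (σ x - θ * s x) ≤ 2 * C := fun x => by linarith [(abs_le.1 (hV x)).1]
  have QV : ∀ χ, g.Sm χ → Qf g (fun x => σ x - θ * s x) χ =
      Qf g σ χ - θ * ∫ x, s x * χ x ^ 2 ∂μ := fun χ hχ => by
    rw [Qf_sub cσ (by fun_prop) hχ, ← integral_const_mul]
    simp only [mul_assoc]
  have sC : ∫ x, s x * ψ x ^ 2 ∂μ ≤ C * ∫ x, ψ x ^ 2 ∂μ := by
    rw [← integral_const_mul]
    exact integral_mono (intg (by fun_prop)) (intg (by fun_prop)) fun x =>
      mul_le_mul_of_nonneg_right (by linarith [(abs_le.1 (hb₂' x)).2]) (sq_nonneg _)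
  obtain ⟨P, hPd⟩ : ∃ P, P = ∫ x, ψ x ^ 2 ∂μ := ⟨_, rfl⟩
  rw [← hPd] at sC
  have hP : 0 < P := by
    have a1 : 0 < ∫ x, s x * ψ x ^ 2 ∂μ :=
      (pos_iff_pos_of_mul_pos ((Qf_nonneg h0 hψ).trans_lt hψ')).1 (by linarith)
    exact (pos_iff_pos_of_mul_pos (a1.trans_le sC)).1 hC
  obtain ⟨I, hId⟩ : ∃ I, I = ∫ x, ψ x ^ 4 ∂μ := ⟨_, rfl⟩
  have hI : 0 ≤ I := hId ▸ integral_nonneg fun x => by positivity
  obtain ⟨c, hcd⟩ : ∃ c, c = P / (8 * L * C ^ 2) := ⟨_, rfl⟩
  have hc : 0 < c := by rw [hcd]; positivity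
  have ha : 0 < ε * η / (2 * C) := by positivity
  obtain ⟨u, d, su, sd, hp, hd⟩ := iterate h sW W0 hC (ρ := (1 + ε * η / (2 * C))⁻¹)
    (by positivity) (inv_lt_one_of_one_lt₀ (by linarith)) (fun χ hχ => by
      have cχ := g.cont hχ
      have e1 := Qf_sub (σ := fun _ => C) (W := fun x => C - (σ x - θ * s x)) continuous_const
        (by fun_prop) hχ
      simp only [sub_sub_cancel] at e1
      have e2 := integral_mono (μ := μ)
        (f := fun x => ε * η / (2 * C) * ((C - (σ x - θ * s x)) * χ x ^ 2)) (intg (by fun_prop))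
        (g := fun x => ε * (s x * χ x ^ 2)) (intg (by fun_prop)) fun x => by
          have a1 := mul_le_mul_of_nonneg_left (W1 x) ha.le
          rw [div_mul_cancel₀ _ (by positivity)] at a1
          linarith [mul_le_mul_of_nonneg_right a1 (sq_nonneg (χ x)),
            mul_le_mul_of_nonneg_right (mul_le_mul_of_nonneg_left (hs0 x) hε.le) (sq_nonneg (χ x))]
      rw [integral_const_mul, integral_const_mul] at e2
      rw [le_inv_mul_iff₀ (by positivity)]
      have e3 := Ts χ hχ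
      rw [QV χ hχ, hθ] at e1
      rw [hθ] at e2 ⊢
      linarith) (ε := min (c / (I + 1) * c) (γ / (4 * C ^ 4))) (lt_min (by positivity) (by positivity))
  have up : ∀ x, 0 < u x := fun x => (inv_pos.2 hC).trans_le (hp x).2.2.1
  have cu := g.cont su
  have cd := g.cont sd
  have cΔ := g.cont (g.sm_Δ su)
  have ci : Continuous fun x => (u x)⁻¹ := cu.inv₀ fun x => (up x).ne'
  have iu : ∀ x, (u x)⁻¹ ≤ C := fun x => inv_le_of_inv_le₀ hC (hp x).2.2.1
  have eb : ∀ x, 0 ≤ (C - (σ x - θ * s x)) * d x * (u x)⁻¹ ∧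
      (C - (σ x - θ * s x)) * d x * (u x)⁻¹ ≤ 2 * C * d x * C := fun x =>
    ⟨mul_nonneg (mul_nonneg (W0 x) (hp x).1) (inv_pos.2 (up x)).le,
      mul_le_mul (mul_le_mul_of_nonneg_right (W1 x) (hp x).1) (iu x) (inv_pos.2 (up x)).le
        (mul_nonneg (by positivity) (hp x).1)⟩
  have eq : ∀ x, σ x - 2 * g.Δ u x / u x =
      θ * s x + (u x)⁻¹ - (C - (σ x - θ * s x)) * d x * (u x)⁻¹ := fun x => by
    have := (up x).ne'
    field_simp
    linarith [(hp x).2.2.2]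
  refine ⟨u, fun x => (C - (σ x - θ * s x)) * d x * (u x)⁻¹, θ, su, by fun_prop, hθ1, ?_,
    fun y => ⟨?_, eq y⟩⟩
  · have := integral_mono (μ := μ) (f := fun x => ((C - (σ x - θ * s x)) * d x * (u x)⁻¹) ^ 2)
      (intg (by fun_prop)) (g := fun x => 4 * C ^ 4 * d x ^ 2) (intg (by fun_prop)) fun x =>
      (pow_le_pow_left₀ (eb x).1 (eb x).2 2).trans_eq (by ring)
    rw [integral_const_mul] at this
    exact this.trans ((le_div_iff₀' (by positivity)).1 (hd.trans (min_le_right _ _)))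
  · by_contra hy
    push Not at hy
    have ub : ∀ x, u x ≤ L := fun x => by
      have := hH u su (fun z => ⟨(up z).le, by
        linarith [(hp z).2.2.2, mul_nonneg (W0 z) (sub_nonneg.2 (hp z).2.1)], by
        linarith [(hp z).2.2.2, mul_nonneg (W0 z) (hp z).1,
          mul_le_mul_of_nonneg_right (W1 z) (up z).le]⟩) x y
      linarith [mul_le_mul_of_nonneg_left hy.le hα.le]
    have g1 := ground_ineq su up hψ cV
    have hc' : 0 < c / (I + 1) := by positivity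
    have g2 := integral_mono (μ := μ)
      (f := fun x => L⁻¹ * ψ x ^ 2 - C ^ 2 * (c / (I + 1) * ψ x ^ 4 + (c / (I + 1))⁻¹ * d x ^ 2))
      (intg (by fun_prop))
      (g := fun x => (σ x - θ * s x - 2 * g.Δ u x / u x) * ψ x ^ 2)
      (intg (by simp only [div_eq_mul_inv]; fun_prop)) fun x => by
        have a1 : σ x - θ * s x - 2 * g.Δ u x / u x =
            (u x)⁻¹ - (C - (σ x - θ * s x)) * d x * (u x)⁻¹ := by linarith [eq x]
        have a2 : L⁻¹ ≤ (u x)⁻¹ := inv_anti₀ (up x) (ub x)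
        have a3 : 2 * (d x * ψ x ^ 2) ≤ c / (I + 1) * ψ x ^ 4 + (c / (I + 1))⁻¹ * d x ^ 2 := by
          have a4 := mul_nonneg (inv_pos.2 hc').le (sq_nonneg (c / (I + 1) * ψ x ^ 2 - d x))
          have a5 : (c / (I + 1))⁻¹ * (c / (I + 1) * ψ x ^ 2 - d x) ^ 2 = c / (I + 1) * ψ x ^ 4 +
              (c / (I + 1))⁻¹ * d x ^ 2 - 2 * (d x * ψ x ^ 2) := by
            field_simp
            ring
          linarith
        simp only [a1]
        linarith [mul_le_mul_of_nonneg_right a2 (sq_nonneg (ψ x)),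
          mul_le_mul_of_nonneg_right (eb x).2 (sq_nonneg (ψ x)),
          mul_le_mul_of_nonneg_left a3 (sq_nonneg C)]
    rw [integral_sub (intg (by fun_prop)) (intg (by fun_prop)), integral_const_mul,
      integral_const_mul, integral_add (intg (by fun_prop)) (intg (by fun_prop)),
      integral_const_mul, integral_const_mul, ← hPd, ← hId] at g2
    rw [QV ψ hψ] at g1
    have g3 : (c / (I + 1))⁻¹ * ∫ x, d x ^ 2 ∂μ ≤ c :=
      (inv_mul_le_iff₀ hc').2 (hd.trans (min_le_left _ _))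
    have g4 : c / (I + 1) * I ≤ c := by
      rw [div_mul_eq_mul_div, div_le_iff₀ (by positivity)]
      linarith
    have g5 : C ^ 2 * (c + c) = L⁻¹ * P / 4 := by
      rw [hcd]
      field_simp
      ring
    have g6 : 2 * ε * (C * P) ≤ L⁻¹ * P / 4 := by
      have := mul_le_mul_of_nonneg_right hε2 (show 0 ≤ 2 * (C * P) by positivity)
      refine (le_of_eq (by ring)).trans (this.trans_eq ?_)
      field_simp
      ring
    have g7 : 0 < L⁻¹ * P := by positivity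
    have g8 := mul_le_mul_of_nonneg_left (add_le_add g4 g3) (sq_nonneg C)
    have g9 := mul_le_mul_of_nonneg_left sC (show 0 ≤ 2 * ε by positivity)
    rw [hθ] at g1
    rw [hθ] at g2
    linarith

theorem ground (h : Heat g) [Nonempty M] (hσ : g.Sm σ) (h0 : ∀ x, 0 ≤ σ x) (hφ : g.Sm φ) {K : ℝ}
    (hK : 0 < K) (hlt : Qf g σ φ < K * Real.sqrt (∫ x, φ x ^ 4 ∂μ)) :
    ∃ f, g.Sm f ∧ ∫ x, (σ x - g.Δ f x - g.Γ f f x / 2) ^ 2 ∂μ ≤ 9 * K ^ 2 := by
  have cφ := g.cont hφ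
  obtain ⟨j, hjd⟩ : ∃ j, j = Real.sqrt (∫ x, φ x ^ 4 ∂μ) := ⟨_, rfl⟩
  have hj2 : j ^ 2 = ∫ x, φ x ^ 4 ∂μ := by
    rw [hjd, Real.sq_sqrt (integral_nonneg fun x => by positivity)]
  rw [← hjd] at hlt
  have hj : 0 < j := (pos_iff_pos_of_mul_pos ((Qf_nonneg h0 hφ).trans_lt hlt)).1 hK
  have hV : 0 ≤ μ.real univ := measureReal_nonneg
  obtain ⟨η, hη, hηV⟩ : ∃ η : ℝ, 0 < η ∧ η ^ 2 * μ.real univ ≤ K ^ 2 / 4 := by
    refine ⟨K / (2 * (μ.real univ + 1)), by positivity, ?_⟩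
    rw [div_pow, div_mul_eq_mul_div, div_le_div_iff₀ (by positivity) (by positivity)]
    linarith [mul_nonneg (sq_nonneg K) hV, mul_nonneg (sq_nonneg K) (sq_nonneg (μ.real univ)),
      sq_nonneg K]
  have hs := g.sm_add (g.sm_smul (K / j) (g.sm_sq hφ)) (g.sm_const η)
  obtain ⟨u, e, θ, su, ce, hθ, he, hu⟩ := ground_aux h hσ h0 hs hη
    (fun x => le_add_of_nonneg_left (by positivity)) hφ (by
      have := integral_mono (μ := μ) (f := fun x => K / j * φ x ^ 4) (intg (by fun_prop))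
        (g := fun x => (K / j * φ x ^ 2 + η) * φ x ^ 2) (intg (by fun_prop)) fun x => by
          linarith [mul_nonneg hη.le (sq_nonneg (φ x))]
      rw [integral_const_mul, ← hj2] at this
      refine hlt.trans_le (le_trans (le_of_eq ?_) this)
      field_simp) (γ := K ^ 2 / 4) (by positivity)
  have up : ∀ x, 0 < u x := fun x => (inv_pos.2 hη).trans_le (hu x).1
  have hl : ∀ x, ContDiffAt ℝ ∞ Real.log (u x) := fun x => Real.contDiffAt_log.2 (up x).ne'
  have sl := g.sm_comp su hl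
  refine ⟨fun x => 2 * Real.log (u x), g.sm_smul 2 sl, ?_⟩
  have e1 : ∀ x, σ x - g.Δ (fun x => 2 * Real.log (u x)) x -
      g.Γ (fun x => 2 * Real.log (u x)) (fun x => 2 * Real.log (u x)) x / 2 =
      θ * (K / j * φ x ^ 2 + η) + (u x)⁻¹ - e x := fun x => by
    rw [← (hu x).2, g.Δ_smul 2 sl, g.Γ_smul 2 sl (g.sm_smul 2 sl), g.Γ_smul_right 2 sl sl,
      g.Δ_comp su hl, g.Γ_comp_self su hl, Real.deriv_log', deriv_inv, ← inv_pow]
    simp only [div_eq_mul_inv]
    ring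
  simp only [e1]
  have ci : Continuous fun x => (u x)⁻¹ := (g.cont su).inv₀ fun x => (up x).ne'
  have := integral_mono (μ := μ) (f := fun x => (θ * (K / j * φ x ^ 2 + η) + (u x)⁻¹ - e x) ^ 2)
    (intg (by fun_prop)) (g := fun x => 6 * (K / j) ^ 2 * φ x ^ 4 + 9 * η ^ 2 + 3 * e x ^ 2)
    (intg (by fun_prop)) fun x => by
      have a1 : (u x)⁻¹ ^ 2 ≤ η ^ 2 :=
        pow_le_pow_left₀ (inv_pos.2 (up x)).le (inv_le_of_inv_le₀ hη (hu x).1) 2
      have a2 : θ ^ 2 ≤ 1 := (sq_le_one_iff_abs_le_one θ).2 hθ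
      have a3 := mul_le_mul_of_nonneg_right a2 (sq_nonneg (K / j * φ x ^ 2 + η))
      linarith [sq_nonneg (θ * (K / j * φ x ^ 2 + η) - (u x)⁻¹),
        sq_nonneg (θ * (K / j * φ x ^ 2 + η) + e x), sq_nonneg ((u x)⁻¹ + e x),
        sq_nonneg (K / j * φ x ^ 2 - η)]
  rw [integral_add (intg (by fun_prop)) (intg (by fun_prop)),
    integral_add (intg (by fun_prop)) (intg (by fun_prop)), integral_const_mul, integral_const_mul,
    integral_const_mul, integral_const, ← hj2, smul_eq_mul] at this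
  have e2 : 6 * (K / j) ^ 2 * j ^ 2 = 6 * K ^ 2 := by field_simp
  linarith

end Pool.Agent.MP_9bd639_gt.H87

end

-- part MP_9bd639_gt.H87.Entropy
section

/-! The entropy of the heat flow of a partition of unity bounds the Sobolev constant. -/

open MeasureTheory Filter Topology Set
open scoped RealInnerProductSpace ContDiff

namespace Pool.Agent.MP_9bd639_gt.H87

open Pool.Agent.MP_3fc7f4_gt

theorem riccati {E F F' : ℝ → ℝ} {c τ t₁ w₀ : ℝ} (hc : 0 ≤ c) (hτ : 0 < τ) (ht : 0 < t₁)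
    (hw : 0 < w₀) (hw1 : w₀ ≤ 1) (hE : ∀ t, 0 < t → HasDerivAt E (-F t) t)
    (hF : ∀ t, 0 < t → HasDerivAt F (F' t) t)
    (hb : ∀ t, 0 < t → ∀ δ, 0 < δ → δ ≤ 1 →
      F' t ≤ -(2 / 3 * (1 - δ) * F t ^ 2) + c * τ ^ 2 / δ ^ 3) :
    E (t₁ + w₀ ^ 2 / τ) - E (t₁ + 1 / τ) ≤ -(3 * Real.log w₀) + 2 * (2 + 16 * c) ∧
      F (t₁ + 1 / τ) ≤ τ * (3 / 2 + (2 + 16 * c)) := by
  obtain ⟨a, ha⟩ : ∃ a, a = 2 + 16 * c := ⟨_, rfl⟩
  rw [← ha]
  have tp : ∀ w : ℝ, 0 < t₁ + w ^ 2 / τ := fun w => by positivity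
  have dt : ∀ w : ℝ, HasDerivAt (fun w : ℝ => t₁ + w ^ 2 / τ) (2 * w / τ) w := fun w => by
    simpa using ((hasDerivAt_pow 2 w).div_const τ).const_add t₁
  have dX : ∀ w : ℝ, HasDerivAt (fun w : ℝ => w ^ 2 / τ * F (t₁ + w ^ 2 / τ))
      (2 * w / τ * F (t₁ + w ^ 2 / τ) + w ^ 2 / τ * (F' (t₁ + w ^ 2 / τ) * (2 * w / τ))) w :=
    fun w => by
      have d1 : HasDerivAt (fun w : ℝ => w ^ 2 / τ) (2 * w / τ) w := by
        simpa using (hasDerivAt_pow 2 w).div_const τ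
      exact d1.mul ((hF _ (tp w)).comp w (dt w))
  have dB : ∀ w : ℝ, HasDerivAt (fun w : ℝ => 3 / 2 + a * w) a w := fun w => by
    simpa using ((hasDerivAt_id w).const_mul a).const_add (3 / 2)
  have key := image_le_of_deriv_right_lt_deriv_boundary (a := 0) (b := 1)
    (fun w _ => (dX w).continuousAt.continuousWithinAt) (fun w _ => (dX w).hasDerivWithinAt)
    (B := fun w => 3 / 2 + a * w) (by simp; norm_num) dB fun w hw e => by
      have w0 : 0 < w := by
        refine hw.1.lt_of_ne fun h0 => ?_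
        rw [← h0] at e
        norm_num at e
      have h1 := hb _ (tp w) (w / 2) (by positivity) (by linarith [hw.2])
      obtain ⟨B, hB⟩ : ∃ B, B = 3 / 2 + a * w := ⟨_, rfl⟩
      have e1 : F (t₁ + w ^ 2 / τ) = B * τ / w ^ 2 := by
        rw [hB, ← e]
        field_simp
      have h2 := mul_le_mul_of_nonneg_left h1 (show 0 ≤ w ^ 2 / τ * (2 * w / τ) by positivity)
      have e2 : 2 * w / τ * (B * τ / w ^ 2) + w ^ 2 / τ * (2 * w / τ) *
          (-(2 / 3 * (1 - w / 2) * (B * τ / w ^ 2) ^ 2) + c * τ ^ 2 / (w / 2) ^ 3) =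
          2 / 3 * B * (B - 2 * a) + 16 * c := by
        field_simp
        rw [hB]
        ring
      have h3 : 3 / 2 ≤ B := by rw [hB]; nlinarith
      have h4 : B ≤ 3 / 2 + a := by rw [hB]; nlinarith [hw.2]
      rw [e1] at h2 ⊢
      nlinarith
  have dG : ∀ w : ℝ, 0 < w → HasDerivAt
      (fun w : ℝ => E (t₁ + w ^ 2 / τ) + 3 * Real.log w + 2 * a * w)
      (-F (t₁ + w ^ 2 / τ) * (2 * w / τ) + 3 * w⁻¹ + 2 * a * 1) w := fun w w0 =>
    (((hE _ (tp w)).comp w (dt w)).add ((Real.hasDerivAt_log w0.ne').const_mul 3)).add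
      ((hasDerivAt_id w).const_mul _)
  have mono := monotoneOn_of_deriv_nonneg (convex_Icc w₀ 1)
    (fun w hw' => (dG w (hw.trans_le hw'.1)).continuousAt.continuousWithinAt)
    (fun w hw' => (dG w
      (hw.trans_le (interior_subset hw').1)).differentiableAt.differentiableWithinAt)
    fun w hw' => by
      have w0 := hw.trans_le (interior_subset hw').1
      have h1 := mul_le_mul_of_nonneg_left (key ⟨w0.le, (interior_subset hw').2⟩)
        (show 0 ≤ 2 * w⁻¹ by positivity)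
      have e1 : 2 * w⁻¹ * (w ^ 2 / τ * F (t₁ + w ^ 2 / τ)) =
          F (t₁ + w ^ 2 / τ) * (2 * w / τ) := by field_simp
      have e2 : 2 * w⁻¹ * (3 / 2 + a * w) = 3 * w⁻¹ + 2 * a := by field_simp
      rw [(dG w w0).deriv]
      linarith
  have h1 := mono ⟨le_rfl, hw1⟩ ⟨hw1, le_rfl⟩ hw1
  have h2 := key ⟨zero_le_one, le_rfl⟩
  simp only [one_pow, Real.log_one, mul_one] at h1 h2
  refine ⟨by nlinarith, ?_⟩
  rwa [one_div, inv_mul_le_iff₀ hτ, ← one_div] at h2

variable {M : Type} [MetricSpace M] [CompactSpace M] [MeasurableSpace M] [BorelSpace M]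
  {μ : Measure M} [IsFiniteMeasure μ] [μ.IsOpenPosMeasure] {lam : ℝ} {g : Geo M μ 3 lam}
  {f v w σ : M → ℝ}

omit [μ.IsOpenPosMeasure] in
theorem hasDeriv_int {F F' : ℝ → M → ℝ}
    (hF : ContinuousOn (fun q : ℝ × M => F q.1 q.2) (Ioi 0 ×ˢ univ))
    (hF' : ContinuousOn (fun q : ℝ × M => F' q.1 q.2) (Ioi 0 ×ˢ univ))
    (hd : ∀ t, 0 < t → ∀ x, HasDerivAt (fun s => F s x) (F' t x) t) {t : ℝ} (ht : 0 < t) :
    HasDerivAt (fun s => ∫ x, F s x ∂μ) (∫ x, F' t x ∂μ) t := by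
  have sl : ∀ {G : ℝ → M → ℝ}, ContinuousOn (fun q : ℝ × M => G q.1 q.2) (Ioi 0 ×ˢ univ) →
      ∀ s, 0 < s → Continuous (G s) := fun hG s hs =>
    hG.comp_continuous (f := fun x => (s, x)) (by fun_prop) fun x => ⟨hs, mem_univ x⟩
  obtain ⟨C, hC⟩ := (isCompact_Icc.prod isCompact_univ).exists_bound_of_continuousOn
    (hF'.mono (prod_mono (Icc_subset_Ioi_iff (a₁ := t / 2) (b₁ := 2 * t) (by linarith)
      |>.2 (half_pos ht)) Subset.rfl))
  have hn : Ioo (t / 2) (2 * t) ∈ 𝓝 t := Ioo_mem_nhds (by linarith) (by linarith)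
  exact (hasDerivAt_integral_of_dominated_loc_of_deriv_le (bound := fun _ => C) hn
    ((lt_mem_nhds ht).mono fun s hs =>
      (sl hF s hs).aestronglyMeasurable)
    (intg (sl hF t ht)) (sl hF' t ht).aestronglyMeasurable
    (Eventually.of_forall fun x s hs => hC (s, x) ⟨Ioo_subset_Icc_self hs, mem_univ x⟩)
    (integrable_const C)
    (Eventually.of_forall fun x s hs => hd s ((half_pos ht).trans hs.1) x)).2

omit [CompactSpace M] [BorelSpace M] [IsFiniteMeasure μ] [μ.IsOpenPosMeasure] in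
theorem log_facts (hv : g.Sm v) (h0 : ∀ x, 0 < v x) : g.Sm (fun x => Real.log (v x)) ∧
    (∀ k, g.Sm k → ∀ x, g.Γ (fun x => Real.log (v x)) k x = (v x)⁻¹ * g.Γ v k x) ∧
    ∀ x, v x * g.Γ (fun x => Real.log (v x)) (fun x => Real.log (v x)) x =
      g.Γ v v x * (v x)⁻¹ := by
  have hl : ∀ x, ContDiffAt ℝ ∞ Real.log (v x) := fun x => Real.contDiffAt_log.2 (h0 x).ne'
  refine ⟨g.sm_comp hv hl, fun k hk x => ?_, fun x => ?_⟩
  · rw [g.Γ_comp hv hk hl, Real.deriv_log]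
  · rw [g.Γ_comp_self hv hl, Real.deriv_log]
    have := (h0 x).ne'
    field_simp

theorem ent_deriv (h : Heat g) {a : Lp ℝ 2 μ} (h0 : ∀ t, 0 < t → ∀ x, 0 < h.U 0 t a x) {t : ℝ}
    (ht : 0 < t) :
    HasDerivAt (fun s => ∫ x, h.U 0 s a x * Real.log (h.U 0 s a x) ∂μ)
      (-∫ x, g.Γ (h.U 0 t a) (h.U 0 t a) x * (h.U 0 t a x)⁻¹ ∂μ) t ∧
    HasDerivAt (fun s => ∫ x, g.Γ (h.U 0 s a) (h.U 0 s a) x * (h.U 0 s a x)⁻¹ ∂μ)
      (2 * -∫ x, h.U 0 t a x * G2 g (fun y => Real.log (h.U 0 t a y)) x ∂μ) t := by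
  have ne : ∀ q ∈ Ioi (0 : ℝ) ×ˢ (univ : Set M), h.U 0 q.1 a q.2 ≠ 0 := fun q hq =>
    (h0 q.1 hq.1 q.2).ne'
  have c0 := h.U_cont 0 a
  have c1 := h.U_cont 1 a
  have sv := h.sm_U 0 ht a
  have sΔ := g.sm_Δ sv
  obtain ⟨sl, eΓ, eF⟩ := log_facts sv (h0 t ht)
  have e1 : h.U 1 t a = g.Δ (h.U 0 t a) := (h.Δ_U 0 ht a).symm
  constructor
  · refine (hasDeriv_int (μ := μ) (F' := fun s x => (Real.log (h.U 0 s a x) + 1) * h.U 1 s a x)
      (c0.mul (c0.log ne)) (((c0.log ne).add continuousOn_const).mul c1)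
      (fun s hs x => (Real.hasDerivAt_mul_log (h0 s hs x).ne').comp s (h.U_deriv 0 hs a x))
      ht).congr_deriv ?_
    rw [e1, ibp' (g.sm_add sl (g.sm_const 1)) sv]
    simp only [g.Γ_add sl (g.sm_const 1) sv, g.Γ_const 1 sv, eΓ _ sv, add_zero, mul_comm]
  · refine (hasDeriv_int (μ := μ) (F' := fun s x =>
        (g.Γ (h.U 1 s a) (h.U 0 s a) x + g.Γ (h.U 0 s a) (h.U 1 s a) x) * (h.U 0 s a x)⁻¹ +
        g.Γ (h.U 0 s a) (h.U 0 s a) x * (-h.U 1 s a x / h.U 0 s a x ^ 2))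
      ((h.Γ_cont 0 0 a a).mul (c0.inv₀ ne))
      ((((h.Γ_cont 1 0 a a).add (h.Γ_cont 0 1 a a)).mul (c0.inv₀ ne)).add
        ((h.Γ_cont 0 0 a a).mul (c1.neg.div (c0.pow 2) fun q hq => pow_ne_zero 2 (ne q hq))))
      (fun s hs x => (h.Γ_deriv 0 0 hs a a x).mul ((h.U_deriv 0 hs a x).inv (h0 s hs x).ne'))
      ht).congr_deriv ?_
    rw [e1]
    have hv := h0 t ht
    generalize h.U 0 t a = v at *
    set l := fun x => Real.log (v x) with hl
    have sG := g.sm_Γ sl sl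
    have k1 := g.cont sv
    have k2 := g.cont sΔ
    have k3 := g.cont sG
    have k4 := g.cont (g.sm_Γ sl sΔ)
    have k5 := g.cont (g.sm_Δ sG)
    have k6 := g.cont (g.sm_Γ sv (g.sm_Δ sl))
    have a1 : ∀ x, (g.Γ (g.Δ v) v x + g.Γ v (g.Δ v) x) * (v x)⁻¹ +
        g.Γ v v x * (-g.Δ v x / v x ^ 2) = 2 * g.Γ l (g.Δ v) x - g.Γ l l x * g.Δ v x := fun x => by
      have := (hv x).ne'
      rw [eΓ _ sΔ, g.Γ_symm sΔ sv, eΓ _ sl, g.Γ_symm sv sl, eΓ _ sv]
      field_simp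
      ring
    have a2 : ∀ x, v x * G2 g l x = v x * g.Δ (g.Γ l l) x / 2 - g.Γ v (g.Δ l) x := fun x => by
      have := (hv x).ne'
      rw [G2, eΓ _ (g.sm_Δ sl)]
      field_simp
    have b1 := ibp' sΔ sl
    have b2 := ibp' (g.sm_Δ sl) sv
    simp only [g.Γ_symm sΔ sl] at b1
    simp only [g.Γ_symm (g.sm_Δ sl) sv, mul_comm (g.Δ l _)] at b2
    simp only [a1, a2]
    rw [integral_sub (intg (by fun_prop)) (intg (by fun_prop)),
      integral_sub (intg (by fun_prop)) (intg (by fun_prop)), integral_const_mul, integral_div,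
      ibp_swap sv sG]
    linarith

omit [μ.IsOpenPosMeasure] in
theorem ent_lower (hv : Continuous v) (h0 : ∀ x, 0 < v x) {m t Z : ℝ} (hm : m = ∫ x, v x ∂μ)
    (hm0 : 0 < m) (hZ : 0 < Z) (x : M) (hg : ∫ y, gw t x y ∂μ ≤ Z) :
    m * Real.log m - m * Real.log Z - (∫ y, v y * dist x y ^ 2 ∂μ) / (4 * t) ≤
      ∫ y, v y * Real.log (v y) ∂μ := by
  have c1 := gibbs_gw_cont t x
  have c2 : Continuous fun y => Real.log (v y) := hv.log fun y => (h0 y).ne'
  have := integral_mono (μ := μ) (f := fun y => (Real.log m - Real.log Z + 1) * v y -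
    v y * dist x y ^ 2 / (4 * t) - m / Z * gw t x y) (intg (by fun_prop))
    (g := fun y => v y * Real.log (v y)) (intg (by fun_prop)) fun y => by
      have gp := gibbs_gw_pos t x y
      have a1 := Real.log_le_sub_one_of_pos (div_pos (mul_pos (div_pos hm0 hZ) gp) (h0 y))
      rw [Real.log_div (by positivity) (h0 y).ne', Real.log_mul (by positivity) gp.ne',
        Real.log_div hm0.ne' hZ.ne', show Real.log (gw t x y) = -(dist x y ^ 2 / (4 * t)) from
        Real.log_exp _] at a1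
      have a2 := mul_le_mul_of_nonneg_left a1 (h0 y).le
      rw [mul_sub (v y) _ 1, mul_div_cancel₀ _ (h0 y).ne'] at a2
      simp only [mul_div_assoc]
      linarith
  rw [integral_sub (intg (by fun_prop)) (intg (by fun_prop)),
    integral_sub (intg (by fun_prop)) (intg (by fun_prop)), integral_const_mul, integral_const_mul,
    integral_div, ← hm] at this
  have a3 := mul_le_mul_of_nonneg_left hg (div_pos hm0 hZ).le
  rw [div_mul_cancel₀ _ hZ.ne'] at a3
  linarith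

theorem ent_upper [Nonempty M] (hv : g.Sm v) (h0 : ∀ x, 0 < v x) (hσ : Continuous σ) {m K τ : ℝ}
    (hm : m = ∫ x, v x ∂μ) (hm0 : 0 < m) (hK : 0 < K) (hτ : 0 < τ)
    (hS : ∀ φ, g.Sm φ → K * Real.sqrt (∫ x, φ x ^ 4 ∂μ) ≤ Qf g σ φ) :
    ∫ y, v y * Real.log (v y) ∂μ ≤ m * Real.log m + 2 * m * Real.log (τ / K) +
      (∫ x, g.Γ v v x * (v x)⁻¹ ∂μ + 2 * ∫ x, σ x * v x ∂μ) / τ := by
  have c0 := g.cont hv
  have c2 : Continuous fun y => Real.log (v y) := c0.log fun y => (h0 y).ne'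
  have c3 := g.cont (g.sm_Γ hv hv)
  have c4 : Continuous fun y => (v y)⁻¹ := c0.inv₀ fun y => (h0 y).ne'
  have hs : ∀ x, ContDiffAt ℝ ∞ Real.sqrt (v x) := fun x => Real.contDiffAt_sqrt (h0 x).ne'
  have h1 := hS _ (g.sm_comp hv hs)
  have e1 : ∀ x, Real.sqrt (v x) ^ 4 = v x ^ 2 := fun x => by
    rw [show 4 = 2 * 2 from rfl, pow_mul, Real.sq_sqrt (h0 x).le]
  have e2 : ∀ x, 2 * g.Γ (fun y => Real.sqrt (v y)) (fun y => Real.sqrt (v y)) x +
      σ x * Real.sqrt (v x) ^ 2 = g.Γ v v x * (v x)⁻¹ / 2 + σ x * v x := fun x => by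
    rw [g.Γ_comp_self hv hs, (Real.hasDerivAt_sqrt (h0 x).ne').deriv, div_pow, mul_pow,
      Real.sq_sqrt (h0 x).le]
    have := (h0 x).ne'
    field_simp
  simp only [Qf, e1, e2] at h1
  rw [integral_add (intg (by fun_prop)) (intg (by fun_prop)), integral_div] at h1
  obtain ⟨x₀⟩ := ‹Nonempty M›
  have hI : 0 < ∫ x, v x ^ 2 ∂μ :=
    (c0.pow 2).integral_pos_of_hasCompactSupport_nonneg_nonzero
      (HasCompactSupport.of_compactSpace _) (fun x => sq_nonneg _) (pow_pos (h0 x₀) 2).ne'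
  obtain ⟨j, hjd⟩ : ∃ j, j = Real.sqrt (∫ x, v x ^ 2 ∂μ) := ⟨_, rfl⟩
  have hj : 0 < j := hjd ▸ Real.sqrt_pos.2 hI
  have hj2 : ∫ x, v x ^ 2 ∂μ = j ^ 2 := by rw [hjd, Real.sq_sqrt hI.le]
  rw [← hjd] at h1
  have := integral_mono (μ := μ) (f := fun y => v y * Real.log (v y)) (intg (by fun_prop))
    (g := fun y => (Real.log (j ^ 2 / m) - 1) * v y + (j ^ 2 / m)⁻¹ * v y ^ 2)
    (intg (by fun_prop)) fun y => by
      have a1 := Real.log_le_sub_one_of_pos (div_pos (h0 y) (show 0 < j ^ 2 / m by positivity))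
      rw [Real.log_div (h0 y).ne' (by positivity), div_eq_inv_mul (v y)] at a1
      linarith [mul_le_mul_of_nonneg_left a1 (h0 y).le]
  rw [integral_add (intg (by fun_prop)) (intg (by fun_prop)), integral_const_mul,
    integral_const_mul, ← hm, hj2, Real.log_div (by positivity) hm0.ne', Real.log_pow] at this
  have e3 : (j ^ 2 / m)⁻¹ * j ^ 2 = m := by field_simp
  have a1 := Real.log_le_sub_one_of_pos (show 0 < j / (m * (τ / K)) by positivity)
  rw [Real.log_div hj.ne' (by positivity), Real.log_mul hm0.ne' (by positivity)] at a1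
  have a2 := mul_le_mul_of_nonneg_left a1 (show 0 ≤ 2 * m by positivity)
  have e4 : 2 * m * (j / (m * (τ / K)) - 1) = 2 * (K * j) / τ - 2 * m := by field_simp
  have a3 := div_le_div_of_nonneg_right (show 2 * (K * j) ≤
    ∫ x, g.Γ v v x * (v x)⁻¹ ∂μ + 2 * ∫ x, σ x * v x ∂μ by linarith) hτ.le
  push_cast at this
  linarith

theorem U_symm (h : Heat g) {t : ℝ} (ht : 0 < t) {a : Lp ℝ 2 μ} {φ k : M → ℝ} (ha : a =ᵐ[μ] φ)
    (hk : Continuous k) :
    ∫ x, h.U 0 t a x * k x ∂μ = ∫ y, φ y * ∫ z, h.p t y z * k z ∂μ ∂μ := by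
  have hb := (mem2 (μ := μ) hk).coeFn_toLp
  rw [← inner_eq_integral (h.U_ae 0 ht a).symm hb, h.semi.symm 0 t ht,
    inner_eq_integral ha (h.U_ae 0 ht _).symm]
  simp only [h.U_eq_integral ht hb]

theorem entropy_bound : ∃ C₀ : ℝ, 0 < C₀ ∧ ∀ (M : Type) [MetricSpace M] [CompactSpace M]
    [Nonempty M] [MeasurableSpace M] [BorelSpace M] (μ : Measure M) [IsFiniteMeasure μ]
    [μ.IsOpenPosMeasure] (lam : ℝ) (g : Geo M μ 3 lam) (c : Curv g) (f w : M → ℝ) (K τ : ℝ),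
    WC g f w → 0 < K → 0 < τ →
    (∀ φ, g.Sm φ → K * Real.sqrt (∫ x, φ x ^ 4 ∂μ) ≤ Qf g c.σ φ) →
    ∫ x, (w x ^ 2 + g.Γ f f x ^ 2) ∂μ ≤ τ ^ 2 * μ.real univ →
    ∫ x, c.σ x ∂μ ≤ τ * μ.real univ → K ^ 4 ≤ C₀ * τ := by
  obtain ⟨CZ, hCZ, hZ⟩ := Z_le 3
  refine ⟨Real.exp (2 * (Real.log CZ + 3 / 2 * Real.log 2 + 15 / 2 + 3 * (2 + 16 * 480000))),
    Real.exp_pos _, fun M _ _ _ _ _ μ _ _ lam g c f w K τ hW hK hτ hS hΛ hA => ?_⟩
  obtain ⟨h⟩ := exists_heat g
  have hlam := g.lam_nonneg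
  have hV : 0 < μ.real univ := ENNReal.toReal_pos (isOpen_univ.measure_ne_zero μ univ_nonempty)
    (measure_ne_top μ _)
  obtain ⟨w₀, hw, hw1, hw2⟩ : ∃ w₀ : ℝ, 0 < w₀ ∧ w₀ ≤ 1 ∧ w₀ ≤ τ / (32 * lam + 1) :=
    ⟨min 1 _, lt_min one_pos (by positivity), min_le_left _ _, min_le_right _ _⟩
  obtain ⟨t₀, ht₀⟩ : ∃ t₀, t₀ = w₀ ^ 2 / τ + w₀ ^ 2 / τ := ⟨_, rfl⟩
  have t0p : 0 < t₀ := by rw [ht₀]; positivity
  have hl : 16 * lam * t₀ ≤ 1 := by
    have a1 : w₀ ^ 2 ≤ w₀ := by nlinarith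
    rw [le_div_iff₀ (by positivity)] at hw2
    rw [ht₀, ← add_div, ← mul_div_assoc, div_le_one hτ]
    linarith [mul_le_mul_of_nonneg_left a1 hlam]
  obtain ⟨S, ψ, hψ, hsum⟩ := c.part (Real.sqrt t₀) (Real.sqrt_pos.2 t0p)
  obtain ⟨D, hD⟩ : ∃ D : ℝ, D = Metric.diam (univ : Set M) ^ 2 := ⟨_, rfl⟩
  have D0 : 0 ≤ D := hD ▸ sq_nonneg _
  have hd : ∀ x y : M, dist x y ^ 2 ≤ D := fun x y => hD ▸ pow_le_pow_left₀ dist_nonneg
    (Metric.dist_le_diam_of_mem isCompact_univ.isBounded (mem_univ x) (mem_univ y)) 2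
  obtain ⟨η, hη, hη2⟩ : ∃ η : ℝ, 0 < η ∧ S.card * η * D ≤ t₀ := by
    refine ⟨t₀ / ((S.card + 1) * (D + 1)), by positivity, ?_⟩
    rw [← mul_div_assoc, div_mul_eq_mul_div, div_le_iff₀ (by positivity)]
    have : (0 : ℝ) ≤ S.card := Nat.cast_nonneg _
    nlinarith [mul_nonneg t0p.le this, mul_nonneg t0p.le D0]
  have cψ : ∀ x, Continuous fun y => ψ x y + η := fun x =>
    (g.cont (hψ x).1).add continuous_const
  have ha := fun x => (mem2 (μ := μ) (cψ x)).coeFn_toLp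
  set a : M → Lp ℝ 2 μ := fun x => (mem2 (μ := μ) (cψ x)).toLp _ with had
  have cp := fun t (ht : 0 < t) z => g.cont (h.sm_p ht z)
  have vpos : ∀ x t, 0 < t → ∀ z, 0 < h.U 0 t (a x) z := fun x t ht z => by
    have c1 := cp t ht z
    have c2 := cψ x
    have := integral_mono (μ := μ) (f := fun y => h.p t z y * η) (intg (by fun_prop))
      (g := fun y => h.p t z y * (ψ x y + η)) (intg (by fun_prop)) fun y =>
      mul_le_mul_of_nonneg_left (le_add_of_nonneg_left ((hψ x).2.1 y)) (h.p_nonneg ht z y)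
    rw [integral_mul_const, h.integral_p ht, one_mul, ← h.U_eq_integral ht (ha x)] at this
    exact hη.trans_le this
  obtain ⟨c₀, hc₀⟩ : ∃ c₀ : ℝ, c₀ = 1 + S.card * η := ⟨_, rfl⟩
  have c01 : 1 ≤ c₀ := by rw [hc₀]; exact le_add_of_nonneg_right (by positivity)
  have s0 : ∀ y, ∑ x ∈ S, (ψ x y + η) = c₀ := fun y => by
    rw [Finset.sum_add_distrib, hsum, Finset.sum_const, nsmul_eq_mul, hc₀]
  have vsum : ∀ t, 0 < t → ∀ k : M → ℝ, Continuous k →
      ∑ x ∈ S, ∫ z, h.U 0 t (a x) z * k z ∂μ = c₀ * ∫ z, k z ∂μ := fun t ht k hk => by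
    rw [← integral_finsetSum _ fun x _ => intg ((g.cont (h.sm_U 0 ht (a x))).fun_mul hk),
      ← integral_const_mul]
    refine integral_congr_ae (Eventually.of_forall fun z => ?_)
    simp only
    rw [← Finset.sum_mul]
    congr 1
    rw [Finset.sum_congr rfl fun x _ => h.U_eq_integral (a := a x) ht (ha x) z,
      ← integral_finsetSum _ fun x _ => intg ((cp t ht z).fun_mul (cψ x))]
    simp only [← Finset.mul_sum, s0]
    rw [integral_mul_const, h.integral_p ht, one_mul]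
  obtain ⟨m, hm⟩ : ∃ m : M → ℝ, ∀ x, m x = ∫ y, (ψ x y + η) ∂μ := ⟨_, fun _ => rfl⟩
  have mass : ∀ x t, 0 < t → m x = ∫ z, h.U 0 t (a x) z ∂μ := fun x t ht => by
    have := U_symm h ht (ha x) (k := fun _ => 1) continuous_const
    simp only [mul_one, h.integral_p ht] at this
    rw [hm, ← this]
  have mpos : ∀ x, 0 < m x := fun x => by
    rw [hm]
    exact (cψ x).integral_pos_of_hasCompactSupport_nonneg_nonzero
      (HasCompactSupport.of_compactSpace _) (fun y => add_nonneg ((hψ x).2.1 y) hη.le)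
      (add_pos_of_nonneg_of_pos ((hψ x).2.1 x) hη).ne'
  obtain ⟨V, hVd⟩ : ∃ V, V = c₀ * μ.real univ := ⟨_, rfl⟩
  have Vp : 0 < V := by rw [hVd]; positivity
  have msum : ∑ x ∈ S, m x = V := by
    have := vsum 1 one_pos (fun _ => 1) continuous_const
    simp only [mul_one, ← mass _ 1 one_pos, integral_const, smul_eq_mul] at this
    rw [this, hVd]
  have mom : ∀ x, ∫ z, h.U 0 t₀ (a x) z * dist x z ^ 2 ∂μ ≤
      14 * t₀ * m x + 2 * η * D * μ.real univ := fun x => by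
    have c1 := cψ x
    rw [U_symm h t0p (ha x) (k := fun z => dist x z ^ 2) (by fun_prop), hm, ← integral_const_mul,
      mul_comm _ (μ.real univ), ← smul_eq_mul (μ.real univ), ← integral_const,
      ← integral_add (intg (by fun_prop)) (intg (by fun_prop))]
    refine integral_mono_of_nonneg (Eventually.of_forall fun y => mul_nonneg
      (add_nonneg ((hψ x).2.1 y) hη.le) (integral_nonneg fun z => mul_nonneg (h.p_nonneg t0p y z)
      (sq_nonneg _))) (intg (by fun_prop)) (Eventually.of_forall fun y => ?_)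
    have a1 := (h.moment t0p x y).2
    have a2 : Real.exp (2 * lam * t₀) ≤ 2 :=
      (gibbs_exp_le (by positivity) (by linarith)).trans (by linarith)
    have a3 := a1.trans (mul_le_mul_of_nonneg_right a2 (by positivity))
    have a4 : ψ x y * dist x y ^ 2 ≤ ψ x y * t₀ := by
      by_cases hy : ψ x y = 0
      · simp [hy]
      · exact mul_le_mul_of_nonneg_left ((pow_le_pow_left₀ dist_nonneg ((hψ x).2.2 y hy) 2).trans_eq
          (Real.sq_sqrt t0p.le)) ((hψ x).2.1 y)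
    have a5 := mul_le_mul_of_nonneg_left a3 (add_nonneg ((hψ x).2.1 y) hη.le)
    push_cast at a5
    linarith [mul_le_mul_of_nonneg_left (hd x y) hη.le, mul_pos hη t0p]
  have cΛ : Continuous fun x => w x ^ 2 + g.Γ f f x ^ 2 :=
    (hW.cont.pow 2).add ((g.cont (g.sm_Γ hW.sm hW.sm)).pow 2)
  obtain ⟨r1, r2⟩ := riccati (c := 480000) (t₁ := w₀ ^ 2 / τ)
    (E := fun t => (∑ x ∈ S, ∫ z, h.U 0 t (a x) z * Real.log (h.U 0 t (a x) z) ∂μ) / V)
    (F := fun t => (∑ x ∈ S, ∫ z, g.Γ (h.U 0 t (a x)) (h.U 0 t (a x)) z *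
      (h.U 0 t (a x) z)⁻¹ ∂μ) / V)
    (F' := fun t => (∑ x ∈ S, 2 * -∫ z, h.U 0 t (a x) z *
      G2 g (fun y => Real.log (h.U 0 t (a x) y)) z ∂μ) / V)
    (by norm_num) hτ (by positivity) hw hw1
    (fun t ht => ((HasDerivAt.fun_sum fun x _ => (ent_deriv h (vpos x) ht).1).div_const
      V).congr_deriv (by rw [Finset.sum_neg_distrib, neg_div]))
    (fun t ht => (HasDerivAt.fun_sum fun x _ => (ent_deriv h (vpos x) ht).2).div_const V)
    fun t ht δ h0 h1 => by
      obtain ⟨y, hy⟩ : ∃ y, y = (∑ x ∈ S, ∫ z, g.Γ (h.U 0 t (a x)) (h.U 0 t (a x)) z *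
        (h.U 0 t (a x) z)⁻¹ ∂μ) / V := ⟨_, rfl⟩
      have key := Finset.sum_le_sum (s := S) fun x _ => by
        have sv := h.sm_U 0 ht (a x)
        obtain ⟨sl, -, eF⟩ := log_facts sv (vpos x t ht)
        have := hW.err (v := h.U 0 t (a x)) sl
          (funext fun z => (Real.exp_log (vpos x t ht z)).symm) h0 h1 y
        simp only [eF, ← mass x t ht] at this
        exact this
      rw [Finset.sum_add_distrib, ← Finset.mul_sum, vsum t ht _ cΛ, Finset.sum_neg_distrib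
        (f := fun x => (1 - δ) * _ / 3), ← Finset.sum_div, ← Finset.mul_sum,
        Finset.sum_sub_distrib, ← Finset.mul_sum, ← Finset.mul_sum, msum] at key
      rw [← hy, ← Finset.mul_sum, div_le_iff₀ Vp]
      rw [eq_div_iff Vp.ne'] at hy
      rw [← hy] at key
      have b1 := mul_le_mul_of_nonneg_left hΛ (show 0 ≤ 240000 / δ ^ 3 * c₀ by positivity)
      have b2 : 480000 * τ ^ 2 / δ ^ 3 * V =
          2 * (240000 / δ ^ 3 * c₀ * (τ ^ 2 * μ.real univ)) := by rw [hVd]; ring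
      linarith
  simp only [← ht₀] at r1
  have Tp : 0 < w₀ ^ 2 / τ + 1 / τ := by positivity
  have Zp : 0 < CZ * Real.sqrt t₀ ^ 3 := by have := Real.sqrt_pos.2 t0p; positivity
  have lo := Finset.sum_le_sum (s := S) fun x _ => (sub_le_sub_left (div_le_div_of_nonneg_right
    (mom x) (show 0 ≤ 4 * t₀ by positivity)) _).trans (ent_lower (g.cont (h.sm_U 0 t0p (a x)))
      (vpos x t₀ t0p) (mass x t₀ t0p) (mpos x) Zp x ((div_le_iff₀ (pow_pos (Real.sqrt_pos.2 t0p)
      3)).1 (hZ M μ lam g h t₀ x t0p hl)))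
  have up := Finset.sum_le_sum (s := S) fun x _ => ent_upper (h.sm_U 0 Tp (a x)) (vpos x _ Tp)
    (g.cont c.sm_σ) (mass x _ Tp) (mpos x) hK hτ hS
  rw [Finset.sum_sub_distrib, Finset.sum_sub_distrib, ← Finset.sum_mul, ← Finset.sum_div,
    Finset.sum_add_distrib, ← Finset.mul_sum, msum, Finset.sum_const, nsmul_eq_mul] at lo
  simp only [mul_comm (c.σ _)] at up
  rw [Finset.sum_add_distrib, Finset.sum_add_distrib, ← Finset.sum_mul, ← Finset.mul_sum,
    ← Finset.sum_div, Finset.sum_add_distrib, ← Finset.mul_sum, vsum _ Tp _ (g.cont c.sm_σ),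
    msum] at up
  rw [← sub_div, div_le_iff₀ Vp] at r1
  rw [div_le_iff₀ Vp] at r2
  have b1 : (14 * t₀ * V + S.card * (2 * η * D * μ.real univ)) / (4 * t₀) ≤ 4 * V := by
    rw [div_le_iff₀ (by positivity)]
    have b2 : μ.real univ ≤ V := by rw [hVd]; exact le_mul_of_one_le_left hV.le c01
    linarith [mul_le_mul hη2 b2 hV.le t0p.le]
  have b2 := div_le_div_of_nonneg_right (add_le_add r2 (mul_le_mul_of_nonneg_left
    (mul_le_mul_of_nonneg_left hA (zero_le_one.trans c01)) zero_le_two)) hτ.le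
  have b3 : (τ * (3 / 2 + (2 + 16 * 480000)) * V + 2 * (c₀ * (τ * μ.real univ))) / τ =
      (7 / 2 + (2 + 16 * 480000)) * V := by
    rw [hVd]
    field_simp
    ring
  have b4 : Real.log (CZ * Real.sqrt t₀ ^ 3) =
      Real.log CZ + 3 / 2 * (Real.log 2 + 2 * Real.log w₀ - Real.log τ) := by
    rw [Real.log_mul hCZ.ne' (pow_pos (Real.sqrt_pos.2 t0p) 3).ne', Real.log_pow,
      Real.log_sqrt t0p.le, ht₀, ← add_div, ← two_mul, Real.log_div (by positivity) hτ.ne',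
      Real.log_mul two_ne_zero (by positivity), Real.log_pow]
    push_cast
    ring
  rw [Real.log_div hτ.ne' hK.ne'] at up
  rw [b4] at lo
  have b5 : (4 * Real.log K) * V ≤ (2 * (Real.log CZ + 3 / 2 * Real.log 2 + 15 / 2 +
      3 * (2 + 16 * 480000)) + Real.log τ) * V := by linarith
  have b6 := Real.exp_le_exp.2 (le_of_mul_le_mul_right b5 Vp)
  rwa [Real.exp_add, Real.exp_log hτ, show 4 * Real.log K = Real.log (K ^ 4) by
    rw [Real.log_pow]; norm_num, Real.exp_log (by positivity)] at b6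

end Pool.Agent.MP_9bd639_gt.H87

end

-- part MP_9bd639_gt.H87.Main
section

/-! The universal bound for the product of the total σ₁ and σ₂ curvatures. -/

open MeasureTheory Filter Topology Set

namespace Pool.Agent.MP_9bd639_gt.H87

open Pool.Agent.MP_3fc7f4_gt

theorem abstract_bound : ∃ C : ℝ, 0 < C ∧ ∀ (M : Type) [MetricSpace M] [CompactSpace M]
    [Nonempty M] [MeasurableSpace M] [BorelSpace M] (μ : Measure M) [IsFiniteMeasure μ]
    [μ.IsOpenPosMeasure] (lam : ℝ) (g : Geo M μ 3 lam) (c : Curv g), (∀ x, 0 ≤ c.σ x) →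
    (∫ x, c.σ x ∂μ) * ∫ x, (6 * c.σ x ^ 2 - c.q x) / 2 ∂μ ≤ C := by
  obtain ⟨C₀, hC₀, hE⟩ := entropy_bound
  refine ⟨36 * 21 * 38 * C₀, by positivity, fun M _ _ _ _ _ μ _ _ lam g c h0 => ?_⟩
  obtain ⟨h⟩ := exists_heat g
  have hA : 0 ≤ ∫ x, c.σ x ∂μ := integral_nonneg h0
  rcases le_or_gt (∫ x, (6 * c.σ x ^ 2 - c.q x) / 2 ∂μ) 0 with hB | hB
  · exact (mul_nonpos_of_nonneg_of_nonpos hA hB).trans (by positivity)
  have hV : 0 < μ.real univ := ENNReal.toReal_pos (isOpen_univ.measure_ne_zero μ univ_nonempty)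
    (measure_ne_top μ _)
  set T : Set ℝ := {K | ∀ φ, g.Sm φ → K * Real.sqrt (∫ x, φ x ^ 4 ∂μ) ≤ Qf g c.σ φ} with hT
  have T0 : (0 : ℝ) ∈ T := fun φ hφ => by rw [zero_mul]; exact Qf_nonneg h0 hφ
  have Tb : BddAbove T := ⟨Qf g c.σ (fun _ => 1) / Real.sqrt (μ.real univ), fun K hK => by
    rw [le_div_iff₀ (Real.sqrt_pos.2 hV)]
    simpa using hK _ (g.sm_const 1)⟩
  have Ts : sSup T ∈ T := fun φ hφ => by
    rcases (Real.sqrt_nonneg (∫ x, φ x ^ 4 ∂μ)).eq_or_lt with e | e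
    · rw [← e, mul_zero]; exact Qf_nonneg h0 hφ
    · rw [← le_div_iff₀ e]
      exact csSup_le ⟨0, T0⟩ fun θ hθ => (le_div_iff₀ e).2 (hθ φ hφ)
  have key : ∀ K', sSup T < K' → ∃ f, g.Sm f ∧ ∫ x, c.pot f x ^ 2 ∂μ ≤ 9 * K' ^ 2 := fun K' hK' => by
    have hn : K' ∉ T := fun hh => hK'.not_ge (le_csSup Tb hh)
    simp only [hT, mem_ofPred_eq, not_forall, not_le] at hn
    obtain ⟨φ, hφ, hφ'⟩ := hn
    exact ground h c.sm_σ h0 hφ ((le_csSup Tb T0).trans_lt hK') hφ'
  obtain ⟨K, hKd⟩ : ∃ K, K = sSup T := ⟨_, rfl⟩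
  rw [← hKd] at Ts key
  have hK : 0 < K := by
    by_contra hK
    obtain ⟨f, hf, hs⟩ := key (Real.sqrt (∫ x, (6 * c.σ x ^ 2 - c.q x) / 2 ∂μ) / 4)
      ((not_lt.1 hK).trans_lt (div_pos (Real.sqrt_pos.2 hB) (by norm_num)))
    have := (c.star h0 hf hs hB.le).1
    rw [div_pow, Real.sq_sqrt hB.le] at this
    linarith
  obtain ⟨f, hf, hs⟩ := key (2 * K) (by linarith)
  obtain ⟨h1, h2, w, hW, h3⟩ := c.star h0 hf hs hB.le
  obtain ⟨r, hr, hr2⟩ : ∃ r : ℝ, 0 < r ∧ μ.real univ = r ^ 2 :=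
    ⟨_, Real.sqrt_pos.2 hV, (Real.sq_sqrt hV.le).symm⟩
  have h4 : ∫ x, c.σ x ∂μ ≤ 21 * K * r := (h2 (9 * K / r) (by positivity)).trans_eq (by
    rw [hr2]
    field_simp
    ring)
  have h5 := hE M μ lam g c f w K (38 * K / r) hW hK (by positivity) Ts
    (h3.trans (by
      rw [hr2, div_pow, div_mul_cancel₀ _ (by positivity)]
      nlinarith [sq_nonneg K]))
    (h4.trans (by
      rw [hr2, show 38 * K / r * r ^ 2 = 38 * K * r by field_simp]
      nlinarith [mul_pos hK hr]))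
  have h6 : K ^ 3 * r ≤ 38 * C₀ := by
    rw [← mul_div_assoc, le_div_iff₀ hr] at h5
    exact le_of_mul_le_mul_right (by linarith) hK
  have h7 := mul_le_mul h4 h1 hB.le (by positivity)
  linarith

theorem universal : ∃ C : ℝ, 0 < C ∧ ∀ N : PointedRiem 3, CompactSpace N.M →
    (∀ x, 0 ≤ scal N x) →
    Integrable (sigma1 N) N.vol ∧ Integrable (sigma2 N) N.vol ∧
      (∫ x, sigma1 N x ∂N.vol) * ∫ x, sigma2 N x ∂N.vol ≤ C := by
  obtain ⟨C, hC, h⟩ := abstract_bound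
  refine ⟨C, hC, fun N _ h0 => ?_⟩
  obtain ⟨lam, hl, hR⟩ := exists_ricciGe (N := N)
  have : Nonempty N.M := ⟨N.pt⟩
  have c1 := (sm_scal (N := N)).continuous
  have c2 := (sm_ricSq (N := N)).continuous
  refine ⟨intg (c1.div_const 4), intg (by unfold sigma2; fun_prop), ?_⟩
  have key := h N.M N.vol lam _ (curv hl hR) fun x => div_nonneg (h0 x) (by norm_num)
  have e : sigma2 N = fun x => (6 * sigma1 N x ^ 2 - ricSq N x) / 2 := funext fun x => by
    rw [sigma2, sigma1]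
    ring
  rw [e]
  exact key

end Pool.Agent.MP_9bd639_gt.H87

end
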